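import Pool.Agent.X151.MG.Pot

/-!
An explicit bounded continuous potential of the field of an ellipse.
-/

namespace Pool.Agent.X151.MG

open MeasureTheory Set
open scoped ENNReal

/-- The height of the ellipse over `x`. -/
noncomputable def ht (a c x : ℝ) : ℝ := c * Real.sqrt (max 0 (1 - (x / a) ^ 2))

theorem ht_cont (a c : ℝ) : Continuous (ht a c) := by
  unfold ht; fun_prop

theorem ht_nonneg {a c : ℝ} (hc : 0 < c) (x : ℝ) : 0 ≤ ht a c x := by
  unfold ht; positivity

theorem mem_ell {a c : ℝ} (hc : 0 < c) (x y : ℝ) : ((x, y) : P) ∈ ell a c ↔ |y| < ht a c x := by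
  show (x / a) ^ 2 + (y / c) ^ 2 < 1 ↔ _
  rw [← sq_lt_sq₀ (abs_nonneg y) (ht_nonneg hc x), sq_abs]
  unfold ht
  rw [mul_pow, Real.sq_sqrt (le_max_left _ _), div_pow y c, ← sub_pos, mul_comm (c ^ 2),
    ← div_lt_iff₀ (by positivity : (0 : ℝ) < c ^ 2)]
  have h0 : 0 ≤ y ^ 2 / c ^ 2 := by positivity
  rw [lt_max_iff]
  constructor
  · intro h
    right; linarith
  · rintro (h | h)
    · linarith
    · linarith

/-- The truncation of `y` to the ellipse. -/
noncomputable def cl (a c : ℝ) (z : P) : ℝ := max (-ht a c z.1) (min z.2 (ht a c z.1))

theorem cl_cont (a c : ℝ) : Continuous (cl a c) := by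
  unfold cl
  have := ht_cont a c
  fun_prop

/-- The explicit potential. -/
noncomputable def ellA (b a c : ℝ) (z : P) : ℝ × ℝ := (-(b * cl a c z), 0)

theorem ellA_pot {a c : ℝ} (hc : 0 < c) (b : ℝ) :
    IsPotential b (disk 1) (ell a c) (ellA b a c) := by
  have hcl := cl_cont a c
  refine ⟨?_, ⟨|b|, ?_⟩, ?_⟩
  · apply Continuous.continuousOn
    unfold ellA
    fun_prop
  · intro z hz
    obtain ⟨h1, h2⟩ := disk_sub hz
    constructor
    · show |-(b * cl a c z)| ≤ |b|
      rw [abs_neg, abs_mul]
      apply mul_le_of_le_one_right (abs_nonneg _)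
      rw [abs_lt] at h2
      have hh := ht_nonneg (a := a) hc z.1
      unfold cl
      rw [abs_le]
      constructor
      · rcases le_total (-1) (-ht a c z.1) with h | h
        · exact h.trans (le_max_left _ _)
        · exact (le_min h2.1.le (by linarith)).trans (le_max_right _ _)
      · apply max_le (by linarith)
        exact (min_le_left _ _).trans h2.2.le
    · show |(0 : ℝ)| ≤ |b|
      rw [abs_zero]; exact abs_nonneg b
  · intro φ hφ hcs _
    set D : P → ℝ := (ell a c).indicator 1 with hD
    have hDm : Measurable D := measurable_one.indicator (ell_open a c).measurableSet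
    have hDb : ∀ z, |D z| ≤ 1 := by
      intro z
      by_cases h : z ∈ ell a c
      · rw [hD, indicator_of_mem h]; simp
      · rw [hD, indicator_of_notMem h]; simp
    have k := ibpB hcl hDm hDb (fun x =>
      ⟨{ht a c x, -ht a c x}, (Set.toFinite _).countable, fun y hy => by
        have hh := ht_nonneg (a := a) hc x
        simp only [mem_insert_iff, mem_singleton_iff, not_or] at hy
        by_cases h : ((x, y) : P) ∈ ell a c
        · rw [hD, indicator_of_mem h]
          rw [mem_ell hc, abs_lt] at h
          have hev : (fun y => cl a c (x, y)) =ᶠ[nhds y] fun y => y := by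
            filter_upwards [Ioo_mem_nhds h.1 h.2] with t htt
            unfold cl
            rw [min_eq_left htt.2.le, max_eq_right htt.1.le]
          exact (hasDerivAt_id y).congr_of_eventuallyEq hev
        · rw [hD, indicator_of_notMem h]
          rw [mem_ell hc, abs_lt, not_and_or, not_lt, not_lt] at h
          rcases h with h | h
          · have h' : y < -ht a c x := lt_of_le_of_ne h hy.2
            have hev : (fun y => cl a c (x, y)) =ᶠ[nhds y] fun _ => -ht a c x := by
              filter_upwards [Iio_mem_nhds h'] with t htt
              have ht' : t < -ht a c x := htt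
              unfold cl
              exact max_eq_left ((min_le_left _ _).trans ht'.le)
            exact (hasDerivAt_const y _).congr_of_eventuallyEq hev
          · have h' : ht a c x < y := lt_of_le_of_ne h (Ne.symm hy.1)
            have hev : (fun y => cl a c (x, y)) =ᶠ[nhds y] fun _ => ht a c x := by
              filter_upwards [Ioi_mem_nhds h'] with t htt
              have ht' : ht a c x < t := htt
              unfold cl
              rw [min_eq_right ht'.le]
              exact max_eq_right (by simp only; linarith)
            exact (hasDerivAt_const y _).congr_of_eventuallyEq hev⟩) hφ hcs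
    have e1 : ∫ z, ((ellA b a c z).1 * d2 φ z - (ellA b a c z).2 * d1 φ z) =
        -b * ∫ z, cl a c z * d2 φ z := by
      rw [← integral_const_mul]
      congr 1
      funext z
      unfold ellA
      ring
    rw [e1, k, ← integral_indicator (ell_open a c).measurableSet]
    have e2 : ∫ z, D z * φ z = ∫ z, (ell a c).indicator φ z := by
      congr 1
      funext z
      by_cases h : z ∈ ell a c
      · rw [hD, indicator_of_mem h, indicator_of_mem h]; simp
      · rw [hD, indicator_of_notMem h, indicator_of_notMem h]; simp
    rw [e2]
    ring

end Pool.Agent.X151.MG
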