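import Pool.Agent.X151.MG.Poin

/-!
The magnetic Neumann Laplacian with a localized field: definitions.
-/

namespace Pool.Agent.X151.MG

open MeasureTheory Set
open scoped ENNReal

/-- The partial derivative in the first variable. -/
noncomputable def d1 {G : Type} [NormedAddCommGroup G] [NormedSpace ℝ G] (f : P → G) (p : P) : G :=
  fderiv ℝ f p (1, 0)

/-- The partial derivative in the second variable. -/
noncomputable def d2 {G : Type} [NormedAddCommGroup G] [NormedSpace ℝ G] (f : P → G) (p : P) : G :=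
  fderiv ℝ f p (0, 1)

/-- `A` is a bounded continuous vector potential on `Ω` of the field `b 1_ω`, that is,
`∂₁ A₂ - ∂₂ A₁ = b 1_ω` in the sense of distributions. -/
def IsPotential (b : ℝ) (Ω ω : Set P) (A : P → ℝ × ℝ) : Prop :=
  ContinuousOn A Ω ∧ (∃ C : ℝ, ∀ p ∈ Ω, |(A p).1| ≤ C ∧ |(A p).2| ≤ C) ∧
    ∀ φ : P → ℝ, ContDiff ℝ 1 φ → HasCompactSupport φ → tsupport φ ⊆ Ω →
      ∫ p, ((A p).1 * d2 φ p - (A p).2 * d1 φ p) = b * ∫ p in ω, φ p

/-- `∫_Ω |u|²`. -/
noncomputable def mass (Ω : Set P) (u : P → ℂ) : ℝ≥0∞ :=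
  ∫⁻ p in Ω, ENNReal.ofReal (‖u p‖ ^ 2)

/-- `∫_Ω |∇u|²`. -/
noncomputable def dirich (Ω : Set P) (u : P → ℂ) : ℝ≥0∞ :=
  ∫⁻ p in Ω, ENNReal.ofReal (‖d1 u p‖ ^ 2 + ‖d2 u p‖ ^ 2)

/-- The magnetic energy `∫_Ω |(-i∇ - A) u|²`. -/
noncomputable def energy (A : P → ℝ × ℝ) (Ω : Set P) (u : P → ℂ) : ℝ≥0∞ :=
  ∫⁻ p in Ω, ENNReal.ofReal (‖-Complex.I * d1 u p - (A p).1 * u p‖ ^ 2 +
    ‖-Complex.I * d2 u p - (A p).2 * u p‖ ^ 2)

/-- The test functions: `C¹` in `Ω`, with `∫_Ω (|u|² + |∇u|²) < ∞`, not identically zero. -/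
def IsTest (Ω : Set P) (u : P → ℂ) : Prop :=
  ContDiffOn ℝ 1 u Ω ∧ mass Ω u < ∞ ∧ dirich Ω u < ∞ ∧ ∃ p ∈ Ω, u p ≠ 0

/-- The lowest magnetic Neumann eigenvalue for the field `b 1_ω` on `Ω` (by gauge invariance the
infimum over the test functions is the same for all potentials `A`). -/
noncomputable def lam (b : ℝ) (Ω ω : Set P) : ℝ≥0∞ :=
  ⨅ (A : P → ℝ × ℝ) (_ : IsPotential b Ω ω A) (u : P → ℂ) (_ : IsTest Ω u),
    energy A Ω u / mass Ω u

theorem cont_d1 {f : P → ℝ} (hf : ContDiff ℝ 1 f) : Continuous (d1 f) :=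
  (hf.continuous_fderiv one_ne_zero).clm_apply continuous_const

theorem cont_d2 {f : P → ℝ} (hf : ContDiff ℝ 1 f) : Continuous (d2 f) :=
  (hf.continuous_fderiv one_ne_zero).clm_apply continuous_const

theorem supp_d1 {f : P → ℝ} (hc : HasCompactSupport f) : HasCompactSupport (d1 f) := by
  have := hc.fderiv (𝕜 := ℝ)
  exact this.comp_left (g := fun L : P →L[ℝ] ℝ => L (1, 0)) rfl

theorem supp_d2 {f : P → ℝ} (hc : HasCompactSupport f) : HasCompactSupport (d2 f) := by
  have := hc.fderiv (𝕜 := ℝ)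
  exact this.comp_left (g := fun L : P →L[ℝ] ℝ => L (0, 1)) rfl

/-- Integration by parts in the second variable. -/
theorem ibp2 {f g : P → ℝ} (hf : ContDiff ℝ 1 f) (hfc : HasCompactSupport f)
    (hg : ContDiff ℝ 1 g) :
    ∫ z, f z * d2 g z = -∫ z, d2 f z * g z := by
  apply integral_mul_fderiv_eq_neg_fderiv_mul_of_integrable
  · exact ((cont_d2 hf).mul hg.continuous).integrable_of_hasCompactSupport
      ((supp_d2 hfc).mul_right)
  · exact (hf.continuous.mul (cont_d2 hg)).integrable_of_hasCompactSupport (hfc.mul_right)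
  · exact (hf.continuous.mul hg.continuous).integrable_of_hasCompactSupport (hfc.mul_right)
  · exact fun x _ => hf.differentiable one_ne_zero x
  · exact fun x _ => hg.differentiable one_ne_zero x

/-- The difference quotients in the first variable converge. -/
theorem quot_tendsto {f : P → ℝ} (hf : ContDiff ℝ 1 f) (z : P) (s : ℝ) (hs : s = 1 ∨ s = -1) :
    Filter.Tendsto (fun n : ℕ => (f (z + ((s * ((n : ℝ) + 1)⁻¹ : ℝ), (0 : ℝ))) - f z) *
      ((n : ℝ) + 1)) Filter.atTop (nhds (s * d1 f z)) := by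
  have h1 : HasFDerivAt f (fderiv ℝ f z) z := (hf.differentiable one_ne_zero z).hasFDerivAt
  have h2 : HasDerivAt (fun t : ℝ => z + t • ((1, 0) : P)) (1, 0) 0 := by
    simpa using ((hasDerivAt_id (0 : ℝ)).smul_const ((1, 0) : P)).const_add z
  have h3 : HasDerivAt (fun t : ℝ => f (z + t • ((1, 0) : P))) (fderiv ℝ f z (1, 0)) 0 := by
    have h1' : HasFDerivAt f (fderiv ℝ f z) (z + (0 : ℝ) • ((1, 0) : P)) := by simpa using h1
    exact h1'.comp_hasDerivAt 0 h2
  have h4 := h3.tendsto_slope_zero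
  have h5 : Filter.Tendsto (fun n : ℕ => s * ((n : ℝ) + 1)⁻¹) Filter.atTop
      (nhdsWithin 0 {0}ᶜ) := by
    rw [tendsto_nhdsWithin_iff]
    constructor
    · have := (tendsto_one_div_add_atTop_nhds_zero_nat (𝕜 := ℝ)).const_mul s
      simpa [one_div] using this
    · apply Filter.Eventually.of_forall
      intro n
      have : (0 : ℝ) < (n : ℝ) + 1 := by positivity
      rcases hs with h | h <;> rw [h] <;> simp [this.ne']
  have h6 := (h4.comp h5).const_mul s
  have e : (fun n : ℕ => (f (z + ((s * ((n : ℝ) + 1)⁻¹ : ℝ), (0 : ℝ))) - f z) *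
      ((n : ℝ) + 1)) = fun n : ℕ => s * ((fun t : ℝ => t⁻¹ • (f (z + (0 + t) • ((1, 0) : P)) -
        f (z + (0 : ℝ) • ((1, 0) : P)))) ∘ fun n : ℕ => s * ((n : ℝ) + 1)⁻¹) n := by
    funext n
    have h0 : (0 : ℝ) < (n : ℝ) + 1 := by positivity
    have hs2 : s * s⁻¹ = 1 := by
      rcases hs with h | h <;> rw [h] <;> norm_num
    simp only [Function.comp, zero_add, zero_smul, add_zero, Prod.smul_mk, smul_eq_mul, mul_one,
      mul_zero, mul_inv, inv_inv]
    calc (f (z + (s * ((n : ℝ) + 1)⁻¹, 0)) - f z) * ((n : ℝ) + 1) =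
        (s * s⁻¹) * ((f (z + (s * ((n : ℝ) + 1)⁻¹, 0)) - f z) * ((n : ℝ) + 1)) := by
          rw [hs2, one_mul]
      _ = _ := by ring
  rw [e]
  exact h6

/-- The integral of a Jacobian determinant of compactly supported functions vanishes. -/
theorem jac {p q : P → ℝ} (hp : ContDiff ℝ 1 p) (hpc : HasCompactSupport p)
    (hq : ContDiff ℝ 1 q) (hqc : HasCompactSupport q) :
    ∫ z, d1 p z * d2 q z = ∫ z, d2 p z * d1 q z := by
  obtain ⟨K, hK⟩ := hp.lipschitzWith_of_hasCompactSupport hpc one_ne_zero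
  obtain ⟨K', hK'⟩ := hq.lipschitzWith_of_hasCompactSupport hqc one_ne_zero
  have hlip : ∀ {f : P → ℝ} {K : NNReal}, LipschitzWith K f → ∀ (z : P) (s : ℝ),
      (s = 1 ∨ s = -1) → ∀ n : ℕ, ‖(f (z + ((s * ((n : ℝ) + 1)⁻¹ : ℝ), (0 : ℝ))) - f z) *
        ((n : ℝ) + 1)‖ ≤ K := by
    intro f K hK z s hs n
    have h0 : (0 : ℝ) < (n : ℝ) + 1 := by positivity
    have h1 := hK.dist_le_mul (z + ((s * ((n : ℝ) + 1)⁻¹ : ℝ), (0 : ℝ))) z
    rw [Real.dist_eq, dist_eq_norm, add_sub_cancel_left] at h1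
    have h2 : ‖(((s * ((n : ℝ) + 1)⁻¹ : ℝ), (0 : ℝ)) : P)‖ = ((n : ℝ) + 1)⁻¹ := by
      rw [Prod.norm_mk, norm_zero, max_eq_left (norm_nonneg _), norm_mul]
      have : ‖s‖ = 1 := by rcases hs with h | h <;> rw [h] <;> simp
      rw [this, one_mul, Real.norm_of_nonneg (by positivity)]
    rw [h2] at h1
    rw [norm_mul, Real.norm_eq_abs, Real.norm_of_nonneg h0.le]
    calc _ ≤ (K * ((n : ℝ) + 1)⁻¹) * ((n : ℝ) + 1) := mul_le_mul_of_nonneg_right h1 h0.le
      _ = K := by rw [mul_assoc, inv_mul_cancel₀ h0.ne', mul_one]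
  -- the two sides as limits
  have hL : Filter.Tendsto (fun n : ℕ => ∫ z, ((p (z + ((1 * ((n : ℝ) + 1)⁻¹ : ℝ), (0 : ℝ))) -
      p z) * ((n : ℝ) + 1)) * d2 q z) Filter.atTop (nhds (∫ z, (1 * d1 p z) * d2 q z)) := by
    apply tendsto_integral_of_dominated_convergence (fun z => K * ‖d2 q z‖)
    · intro n
      apply Continuous.aestronglyMeasurable
      have := hp.continuous
      have := cont_d2 hq
      fun_prop
    · exact (((cont_d2 hq).norm).integrable_of_hasCompactSupport (supp_d2 hqc).norm).const_mul _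
    · intro n
      apply Filter.Eventually.of_forall
      intro z
      rw [norm_mul]
      exact mul_le_mul_of_nonneg_right (hlip hK z 1 (Or.inl rfl) n) (norm_nonneg _)
    · apply Filter.Eventually.of_forall
      intro z
      exact (quot_tendsto hp z 1 (Or.inl rfl)).mul_const _
  have hR : Filter.Tendsto (fun n : ℕ => ∫ z, d2 p z *
      ((q (z + ((-1 * ((n : ℝ) + 1)⁻¹ : ℝ), (0 : ℝ))) - q z) * ((n : ℝ) + 1)))
      Filter.atTop (nhds (∫ z, d2 p z * (-1 * d1 q z))) := by
    apply tendsto_integral_of_dominated_convergence (fun z => ‖d2 p z‖ * K')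
    · intro n
      apply Continuous.aestronglyMeasurable
      have := hq.continuous
      have := cont_d2 hp
      fun_prop
    · exact (((cont_d2 hp).norm).integrable_of_hasCompactSupport (supp_d2 hpc).norm).mul_const _
    · intro n
      apply Filter.Eventually.of_forall
      intro z
      rw [norm_mul]
      exact mul_le_mul_of_nonneg_left (hlip hK' z (-1) (Or.inr rfl) n) (norm_nonneg _)
    · apply Filter.Eventually.of_forall
      intro z
      exact (quot_tendsto hq z (-1) (Or.inr rfl)).const_mul _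
  -- the two sequences are opposite
  have hEq : ∀ n : ℕ, ∫ z, ((p (z + ((1 * ((n : ℝ) + 1)⁻¹ : ℝ), (0 : ℝ))) -
      p z) * ((n : ℝ) + 1)) * d2 q z = -∫ z, d2 p z *
      ((q (z + ((-1 * ((n : ℝ) + 1)⁻¹ : ℝ), (0 : ℝ))) - q z) * ((n : ℝ) + 1)) := by
    intro n
    set h : ℝ := ((n : ℝ) + 1)⁻¹ with hh
    set c : ℝ := (n : ℝ) + 1 with hc
    have hv : ((-1 * h : ℝ), (0 : ℝ)) = -(((1 * h : ℝ), (0 : ℝ)) : P) := by
      ext <;> simp
    set v : P := ((1 * h : ℝ), (0 : ℝ)) with hv0
    have hpv : ContDiff ℝ 1 fun z => p (z + v) := hp.comp (contDiff_id.add contDiff_const)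
    have hpvc : HasCompactSupport fun z => p (z + v) :=
      hpc.comp_homeomorph (Homeomorph.addRight v)
    have hqv : ContDiff ℝ 1 fun z => q (z + -v) := hq.comp (contDiff_id.add contDiff_const)
    have hqvc : HasCompactSupport fun z => q (z + -v) :=
      hqc.comp_homeomorph (Homeomorph.addRight (-v))
    have hd : ∀ z, d2 (fun z => p (z + v)) z = d2 p (z + v) := by
      intro z
      unfold d2
      rw [fderiv_comp_add_right]
    have i1 : Integrable fun z => p (z + v) * d2 q z :=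
      (hpv.continuous.mul (cont_d2 hq)).integrable_of_hasCompactSupport hpvc.mul_right
    have i2 : Integrable fun z => p z * d2 q z :=
      (hp.continuous.mul (cont_d2 hq)).integrable_of_hasCompactSupport hpc.mul_right
    have i3 : Integrable fun z => d2 p z * q (z + -v) :=
      ((cont_d2 hp).mul hqv.continuous).integrable_of_hasCompactSupport (supp_d2 hpc).mul_right
    have i4 : Integrable fun z => d2 p z * q z :=
      ((cont_d2 hp).mul hq.continuous).integrable_of_hasCompactSupport (supp_d2 hpc).mul_right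
    have e1 : ∫ z, (p (z + v) - p z) * c * d2 q z =
        c * ((∫ z, p (z + v) * d2 q z) - ∫ z, p z * d2 q z) := by
      rw [← integral_sub i1 i2, ← integral_const_mul]
      congr 1
      funext z
      ring
    have e2 : ∫ z, d2 p z * ((q (z + -v) - q z) * c) =
        c * ((∫ z, d2 p z * q (z + -v)) - ∫ z, d2 p z * q z) := by
      rw [← integral_sub i3 i4, ← integral_const_mul]
      congr 1
      funext z
      ring
    rw [hv, e1, e2, ibp2 hpv hpvc hq, ibp2 hp hpc hq]
    simp_rw [hd]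
    have e3 : ∫ z, d2 p (z + v) * q z = ∫ z, d2 p z * q (z + -v) := by
      have := integral_add_right_eq_self (μ := (volume : Measure P))
        (fun z => d2 p z * q (z + -v)) v
      rw [← this]
      congr 1
      funext z
      rw [add_neg_cancel_right]
    rw [e3]
    ring
  have hlim := tendsto_nhds_unique (hL.congr hEq) hR.neg
  simp only [one_mul] at hlim
  rw [hlim, ← integral_neg]
  congr 1
  funext z
  ring

end Pool.Agent.X151.MG
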