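import Pool.Agent.X151.MG.Trial3

/-!
Areas of disks and ellipses, and the comparison.
-/

namespace Pool.Agent.X151.MG

open MeasureTheory Set
open scoped ENNReal

theorem vol_disk {R : ℝ} (hR : 0 ≤ R) : volume (disk R) = ENNReal.ofReal (Real.pi * R ^ 2) := by
  have h := Complex.volume_preserving_equiv_real_prod.symm.measure_preimage_equiv
    (Metric.ball (0 : ℂ) R)
  have e : Complex.measurableEquivRealProd.symm ⁻¹' (Metric.ball (0 : ℂ) R) = disk R := by
    ext p
    rw [mem_preimage, mem_ball_zero_iff]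
    have e1 : Complex.measurableEquivRealProd.symm p = (p.1 : ℂ) + p.2 * Complex.I := by
      apply Complex.ext <;> simp [Complex.measurableEquivRealProd]
    rw [e1]
    show _ ↔ p.1 ^ 2 + p.2 ^ 2 < R ^ 2
    rw [← normsq, sq_lt_sq₀ (norm_nonneg _) hR]
  rw [e] at h
  rw [h, Complex.volume_ball, ← ENNReal.ofReal_pow hR]
  rw [mul_comm Real.pi, ENNReal.ofReal_mul (by positivity)]
  congr 1
  rw [← ENNReal.ofReal_coe_nnreal]
  rfl

theorem vol_ell {a c : ℝ} (ha : 0 < a) (hc : 0 < c) :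
    volume (ell a c) = ENNReal.ofReal (Real.pi * (a * c)) := by
  set f : P →ₗ[ℝ] P := LinearMap.prodMap (a⁻¹ • LinearMap.id) (c⁻¹ • LinearMap.id) with hf
  have hdet : LinearMap.det f = a⁻¹ * c⁻¹ := by
    rw [hf, LinearMap.det_prodMap, LinearMap.det_smul, LinearMap.det_smul]
    simp
  have hne : LinearMap.det f ≠ 0 := by
    rw [hdet]; positivity
  have h := Measure.addHaar_preimage_linearMap (volume : Measure P) hne (disk 1)
  have e : f ⁻¹' (disk 1) = ell a c := by
    ext p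
    show (a⁻¹ * p.1) ^ 2 + (c⁻¹ * p.2) ^ 2 < 1 ^ 2 ↔ (p.1 / a) ^ 2 + (p.2 / c) ^ 2 < 1
    rw [one_pow, inv_mul_eq_div, inv_mul_eq_div]
  rw [e, hdet, vol_disk (by norm_num), ← ENNReal.ofReal_mul (abs_nonneg _)] at h
  rw [h]
  congr 1
  rw [abs_of_pos (by positivity)]
  field_simp

theorem clos_ell {ε : ℝ} (hε : 0 < ε) (hε1 : ε ≤ 1 / 2) : closure (ell (1 / 2) ε) ⊆ disk 1 := by
  have hcl : IsClosed {p : P | (p.1 / (1 / 2)) ^ 2 + (p.2 / ε) ^ 2 ≤ 1} :=
    isClosed_le (by fun_prop) continuous_const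
  have h1 : closure (ell (1 / 2) ε) ⊆ {p : P | (p.1 / (1 / 2)) ^ 2 + (p.2 / ε) ^ 2 ≤ 1} :=
    closure_minimal (fun p hp => by
      have h0 : (p.1 / (1 / 2)) ^ 2 + (p.2 / ε) ^ 2 < 1 := hp
      exact h0.le) hcl
  refine h1.trans ?_
  intro p hp
  have h2 : (p.1 / (1 / 2)) ^ 2 + (p.2 / ε) ^ 2 ≤ 1 := hp
  show p.1 ^ 2 + p.2 ^ 2 < 1 ^ 2
  have h3 : p.2 ^ 2 ≤ ε ^ 2 * (p.2 / ε) ^ 2 := by
    rw [div_pow]
    field_simp
    exact le_rfl
  have h4 : ε ^ 2 ≤ 1 / 4 := by nlinarith
  have h5 : ε ^ 2 * (p.2 / ε) ^ 2 ≤ 1 / 4 * (p.2 / ε) ^ 2 :=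
    mul_le_mul_of_nonneg_right h4 (sq_nonneg _)
  have h6 : (p.1 / (1 / 2)) ^ 2 = 4 * p.1 ^ 2 := by ring
  nlinarith [sq_nonneg p.1, sq_nonneg (p.2 / ε)]

/-- For a suitable thin ellipse and a suitable integer flux, the lowest eigenvalue is larger than
for the disk of the same area. -/
theorem final : ∃ (ε : ℝ) (N : ℕ), 0 < ε ∧ ε ≤ 1 / 2 ∧
    lam (2 * Real.pi * N / (volume (ell (1 / 2) ε)).toReal) (disk 1) (disk (Real.sqrt (ε / 2))) <
    lam (2 * Real.pi * N / (volume (ell (1 / 2) ε)).toReal) (disk 1) (ell (1 / 2) ε) := by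
  set s : ℝ := Real.exp (-(10000000 : ℝ)) with hs
  have hs0 : 0 < s := Real.exp_pos _
  have hL : Real.log (1 / s) = 10000000 := by
    rw [one_div, Real.log_inv, hs, Real.log_exp, neg_neg]
  have hs1 : 2 * s ≤ 1 / 2 := by
    have h1 : s ≤ Real.exp (-2) := Real.exp_le_exp.2 (by norm_num)
    have h2 : Real.exp (-2) ≤ 1 / 4 := by
      have h3 : (4 : ℝ) ≤ Real.exp 2 := by
        have h4 : (2 : ℝ) ≤ Real.exp 1 := by
          have := Real.add_one_le_exp (1 : ℝ)
          linarith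
        have h5 : Real.exp 2 = Real.exp 1 * Real.exp 1 := by
          rw [← Real.exp_add]; norm_num
        rw [h5]; nlinarith
      rw [Real.exp_neg, inv_eq_one_div]
      exact one_div_le_one_div_of_le (by norm_num) h3
    linarith
  obtain ⟨B, hB⟩ := lower (ε := 2 * s) (by positivity) hs1
  obtain ⟨M, hM⟩ := exists_nat_ge (B * s)
  refine ⟨2 * s, 2 * M, by positivity, hs1, ?_⟩
  have hvol : (volume (ell (1 / 2) (2 * s))).toReal = Real.pi * s := by
    rw [vol_ell (by norm_num) (by positivity), ENNReal.toReal_ofReal (by positivity)]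
    ring
  have hb : 2 * Real.pi * ((2 * M : ℕ) : ℝ) / (volume (ell (1 / 2) (2 * s))).toReal =
      2 * (2 * M) / s := by
    rw [hvol]
    push_cast
    field_simp
  rw [hb]
  have hR : Real.sqrt (2 * s / 2) ^ 2 = s := by
    rw [Real.sq_sqrt (by positivity)]; ring
  have hup := upper hs0 (by rw [hL]; norm_num) M hR
  rw [hL] at hup
  have hbB : B ≤ 2 * (2 * M) / s := by
    rw [le_div_iff₀ hs0]
    have : (0 : ℝ) ≤ M := Nat.cast_nonneg M
    linarith
  have hlow : ENNReal.ofReal (1 / 1092) ≤ lam (2 * (2 * M) / s) (disk 1) (ell (1 / 2) (2 * s)) := by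
    unfold lam
    refine le_iInf₂ fun A hA => le_iInf₂ fun u hu => ?_
    have h := hB _ hbB A hA u hu
    have hm0 : mass (disk 1) u ≠ 0 := by
      obtain ⟨hc, -, -, p, hp, hup⟩ := hu
      intro h0
      unfold mass at h0
      rw [lintegral_eq_zero_iff'] at h0
      · have hcont : ContinuousOn (fun p => ENNReal.ofReal (‖u p‖ ^ 2)) (disk 1) := by
          have := hc.continuousOn
          exact ENNReal.continuous_ofReal.comp_continuousOn (this.norm.pow 2)
        have h1 := (disk_open 1).measurableSet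
        have h2 : EqOn (fun p => ENNReal.ofReal (‖u p‖ ^ 2)) (fun _ => 0) (disk 1) :=
          Measure.eqOn_open_of_ae_eq h0 (disk_open 1) hcont continuousOn_const
        have h3 := h2 hp
        simp only [ENNReal.ofReal_eq_zero] at h3
        have h4 : 0 < ‖u p‖ ^ 2 := by
          have := norm_pos_iff.2 hup
          positivity
        linarith
      · apply AEMeasurable.ennreal_ofReal
        exact ((hc.continuousOn.norm.pow 2).aestronglyMeasurable
          (disk_open 1).measurableSet).aemeasurable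
    rw [ENNReal.le_div_iff_mul_le (Or.inl hm0) (Or.inl hu.2.1.ne)]
    calc ENNReal.ofReal (1 / 1092) * mass (disk 1) u ≤
        ENNReal.ofReal (1 / 1092) * (1092 * energy A (disk 1) u) := mul_le_mul' le_rfl h
      _ = energy A (disk 1) u := by
        rw [← mul_assoc]
        have : ENNReal.ofReal (1 / 1092) * 1092 = 1 := by
          rw [show (1092 : ℝ≥0∞) = ENNReal.ofReal 1092 by norm_num,
            ← ENNReal.ofReal_mul (by norm_num)]
          norm_num
        rw [this, one_mul]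
  refine lt_of_le_of_lt hup (lt_of_lt_of_le ?_ hlow)
  rw [ENNReal.ofReal_lt_ofReal_iff (by norm_num)]
  have := Real.pi_lt_d2
  linarith

end Pool.Agent.X151.MG
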