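import Pool.Agent.X151.MG.Mag

/-!
The lower bound for the magnetic energy on the unit disk.
-/

namespace Pool.Agent.X151.MG

open MeasureTheory Set
open scoped ENNReal

theorem contDiff_mul {Ω : Set P} (hΩ : IsOpen Ω) {φ : P → ℝ} (hφ : ContDiff ℝ 1 φ)
    (hs : tsupport φ ⊆ Ω) {u : P → ℂ} (hu : ContDiffOn ℝ 1 u Ω) :
    ContDiff ℝ 1 fun z => (φ z : ℂ) * u z := by
  rw [contDiff_iff_contDiffAt]
  intro z
  have h1 : ContDiff ℝ 1 fun z => (φ z : ℂ) := Complex.ofRealCLM.contDiff.comp hφ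
  by_cases hz : z ∈ tsupport φ
  · exact h1.contDiffAt.mul (hu.contDiffAt (hΩ.mem_nhds (hs hz)))
  · have : (fun z => (φ z : ℂ) * u z) =ᶠ[nhds z] fun _ => 0 := by
      have h2 := (isClosed_tsupport φ).isOpen_compl.mem_nhds hz
      filter_upwards [h2] with y hy
      rw [image_eq_zero_of_notMem_tsupport hy]
      simp
    exact contDiffAt_const.congr_of_eventuallyEq this

/-- The energy density of a product with a real function. -/
theorem eden_mul {φ : P → ℝ} {u : P → ℂ} {z : P} (hφ : DifferentiableAt ℝ φ z)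
    (hu : DifferentiableAt ℝ u z) (A : P → ℝ × ℝ) :
    eden A (fun z => (φ z : ℂ) * u z) z ≤ 2 * φ z ^ 2 * eden A u z +
      2 * (d1 φ z ^ 2 + d2 φ z ^ 2) * ‖u z‖ ^ 2 := by
  have h1 : HasFDerivAt (fun z => (φ z : ℂ)) (Complex.ofRealCLM.comp (fderiv ℝ φ z)) z :=
    Complex.ofRealCLM.hasFDerivAt.comp z hφ.hasFDerivAt
  have h2 := h1.mul hu.hasFDerivAt
  have e1 : d1 (fun z => (φ z : ℂ) * u z) z = φ z * d1 u z + d1 φ z * u z := by
    unfold d1
    have h3 : fderiv ℝ (fun z => (φ z : ℂ) * u z) z = _ := h2.fderiv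
    rw [h3]
    simp
    ring
  have e2 : d2 (fun z => (φ z : ℂ) * u z) z = φ z * d2 u z + d2 φ z * u z := by
    unfold d2
    have h3 : fderiv ℝ (fun z => (φ z : ℂ) * u z) z = _ := h2.fderiv
    rw [h3]
    simp
    ring
  have hsq : ∀ a b : ℂ, ‖a + b‖ ^ 2 ≤ 2 * ‖a‖ ^ 2 + 2 * ‖b‖ ^ 2 := by
    intro a b
    have h4 := norm_add_le a b
    have h5 := pow_le_pow_left₀ (norm_nonneg _) h4 2
    nlinarith [sq_nonneg (‖a‖ - ‖b‖)]
  unfold eden
  rw [e1, e2]
  have a1 : -Complex.I * (φ z * d1 u z + d1 φ z * u z) - (A z).1 * (φ z * u z) =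
      φ z * (-Complex.I * d1 u z - (A z).1 * u z) + (-Complex.I * d1 φ z * u z) := by ring
  have a2 : -Complex.I * (φ z * d2 u z + d2 φ z * u z) - (A z).2 * (φ z * u z) =
      φ z * (-Complex.I * d2 u z - (A z).2 * u z) + (-Complex.I * d2 φ z * u z) := by ring
  have b1 := hsq (φ z * (-Complex.I * d1 u z - (A z).1 * u z)) (-Complex.I * d1 φ z * u z)
  have b2 := hsq (φ z * (-Complex.I * d2 u z - (A z).2 * u z)) (-Complex.I * d2 φ z * u z)
  rw [a1, a2]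
  have c1 : ‖(φ z : ℂ) * (-Complex.I * d1 u z - (A z).1 * u z)‖ ^ 2 =
      φ z ^ 2 * ‖-Complex.I * d1 u z - (A z).1 * u z‖ ^ 2 := by
    rw [norm_mul, mul_pow, Complex.norm_real, Real.norm_eq_abs, sq_abs]
  have c2 : ‖(φ z : ℂ) * (-Complex.I * d2 u z - (A z).2 * u z)‖ ^ 2 =
      φ z ^ 2 * ‖-Complex.I * d2 u z - (A z).2 * u z‖ ^ 2 := by
    rw [norm_mul, mul_pow, Complex.norm_real, Real.norm_eq_abs, sq_abs]
  have c3 : ‖-Complex.I * ((d1 φ z : ℝ) : ℂ) * u z‖ ^ 2 = d1 φ z ^ 2 * ‖u z‖ ^ 2 := by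
    rw [norm_mul, norm_mul, norm_neg, Complex.norm_I, one_mul, mul_pow, Complex.norm_real,
      Real.norm_eq_abs, sq_abs]
  have c4 : ‖-Complex.I * ((d2 φ z : ℝ) : ℂ) * u z‖ ^ 2 = d2 φ z ^ 2 * ‖u z‖ ^ 2 := by
    rw [norm_mul, norm_mul, norm_neg, Complex.norm_I, one_mul, mul_pow, Complex.norm_real,
      Real.norm_eq_abs, sq_abs]
  rw [c1, c3] at b1
  rw [c2, c4] at b2
  linarith

/-- The mass where the field is large is small. -/
theorem low1 {b : ℝ} (hb : 0 ≤ b) {Ω ω ω' : Set P} (hΩ : IsOpen Ω) (hωΩ : ω ⊆ Ω)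
    {A : P → ℝ × ℝ} (hA : IsPotential b Ω ω A) {φ : P → ℝ} (hφ : ContDiff ℝ 1 φ)
    (hφc : HasCompactSupport φ) (hφs : tsupport φ ⊆ ω) (hφ0 : ∀ z, 0 ≤ φ z) (hφ1 : ∀ z, φ z ≤ 1)
    (hω' : MeasurableSet ω') (hφω : ∀ z ∈ ω', φ z = 1) {K : ℝ} (hK : 0 ≤ K)
    (hφK : ∀ z, d1 φ z ^ 2 + d2 φ z ^ 2 ≤ K) {u : P → ℂ} (hu : ContDiffOn ℝ 1 u Ω) :
    ENNReal.ofReal b * mass ω' u ≤ 2 * energy A Ω u + ENNReal.ofReal (2 * K) * mass Ω u := by
  set w : P → ℂ := fun z => (φ z : ℂ) * u z with hw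
  have hwd : ContDiff ℝ 1 w := contDiff_mul hΩ hφ (hφs.trans hωΩ) hu
  have hws : tsupport w ⊆ tsupport φ := by
    apply closure_mono
    intro z hz hz'
    apply hz
    show (φ z : ℂ) * u z = 0
    rw [hz']; simp
  have hwc : HasCompactSupport w := HasCompactSupport.of_support_subset_isCompact hφc
    (subset_closure.trans hws)
  have h1 := magnetic hb hΩ hωΩ hA hwd hwc (hws.trans hφs)
  have h2 : mass ω' u ≤ ∫⁻ z, ENNReal.ofReal (‖w z‖ ^ 2) := by
    unfold mass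
    calc ∫⁻ z in ω', ENNReal.ofReal (‖u z‖ ^ 2) = ∫⁻ z in ω', ENNReal.ofReal (‖w z‖ ^ 2) := by
          apply setLIntegral_congr_fun hω'
          intro z hz
          show ENNReal.ofReal (‖u z‖ ^ 2) = ENNReal.ofReal (‖(φ z : ℂ) * u z‖ ^ 2)
          rw [hφω z hz]; simp
      _ ≤ _ := setLIntegral_le_lintegral _ _
  have h3 : ∫⁻ z, ENNReal.ofReal (eden A w z) ≤
      ∫⁻ z in Ω, (2 * ENNReal.ofReal (eden A u z) +
        ENNReal.ofReal (2 * K) * ENNReal.ofReal (‖u z‖ ^ 2)) := by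
    rw [← lintegral_indicator hΩ.measurableSet]
    apply lintegral_mono
    intro z
    by_cases hz : z ∈ tsupport φ
    · have hzΩ : z ∈ Ω := hωΩ (hφs hz)
      rw [indicator_of_mem hzΩ]
      have hud : DifferentiableAt ℝ u z :=
        (hu.differentiableOn one_ne_zero).differentiableAt (hΩ.mem_nhds hzΩ)
      have h4 := eden_mul (hφ.differentiable one_ne_zero z) hud A
      have h5 : 0 ≤ eden A u z := by unfold eden; positivity
      have h6 : φ z ^ 2 ≤ 1 := pow_le_one₀ (hφ0 z) (hφ1 z)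
      have h7 : eden A w z ≤ 2 * eden A u z + 2 * K * ‖u z‖ ^ 2 := by
        refine h4.trans ?_
        have h8 : φ z ^ 2 * eden A u z ≤ 1 * eden A u z := mul_le_mul_of_nonneg_right h6 h5
        have h9 : (d1 φ z ^ 2 + d2 φ z ^ 2) * ‖u z‖ ^ 2 ≤ K * ‖u z‖ ^ 2 :=
          mul_le_mul_of_nonneg_right (hφK z) (sq_nonneg _)
        linarith
      calc ENNReal.ofReal (eden A w z) ≤ ENNReal.ofReal (2 * eden A u z + 2 * K * ‖u z‖ ^ 2) :=
            ENNReal.ofReal_le_ofReal h7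
        _ = _ := by
            rw [ENNReal.ofReal_add (by positivity) (by positivity), ENNReal.ofReal_mul two_pos.le,
              ENNReal.ofReal_mul (by positivity)]
            simp
    · have h4 : w z = 0 := image_eq_zero_of_notMem_tsupport fun h => hz (hws h)
      have h5 : fderiv ℝ w z = 0 := by
        by_contra h
        exact hz (hws (support_fderiv_subset ℝ h))
      have h6 : eden A w z = 0 := by
        unfold eden d1 d2
        rw [h4, h5]; simp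
      show ENNReal.ofReal (eden A w z) ≤ _
      rw [h6]; simp
  have h4 : ∫⁻ z in Ω, (2 * ENNReal.ofReal (eden A u z) +
        ENNReal.ofReal (2 * K) * ENNReal.ofReal (‖u z‖ ^ 2)) =
      2 * energy A Ω u + ENNReal.ofReal (2 * K) * mass Ω u := by
    rw [lintegral_add_right']
    · rw [lintegral_const_mul' _ _ ENNReal.ofNat_ne_top, lintegral_const_mul' _ _
        ENNReal.ofReal_ne_top]
      rfl
    · apply AEMeasurable.const_mul
      apply AEMeasurable.ennreal_ofReal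
      exact ((hu.continuousOn.norm.pow 2).aemeasurable hΩ.measurableSet)
  calc ENNReal.ofReal b * mass ω' u ≤ ENNReal.ofReal b * ∫⁻ z, ENNReal.ofReal (‖w z‖ ^ 2) :=
        mul_le_mul' le_rfl h2
    _ ≤ _ := h1
    _ ≤ _ := h3
    _ = _ := h4

/-- The regularised modulus. -/
noncomputable def fmod (δ : ℝ) (u : P → ℂ) (z : P) : ℝ := Real.sqrt (‖u z‖ ^ 2 + δ ^ 2)

theorem fmod_sq (δ : ℝ) (u : P → ℂ) (z : P) : fmod δ u z ^ 2 = ‖u z‖ ^ 2 + δ ^ 2 :=
  Real.sq_sqrt (by positivity)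

theorem fmod_contDiff {δ : ℝ} (hδ : 0 < δ) {Ω : Set P} {u : P → ℂ} (hu : ContDiffOn ℝ 1 u Ω) :
    ContDiffOn ℝ 1 (fmod δ u) Ω := by
  unfold fmod
  apply ContDiffOn.sqrt
  · exact (hu.norm_sq ℝ).add contDiffOn_const
  · intro z _
    positivity

/-- The diamagnetic inequality. -/
theorem fmod_deriv {δ : ℝ} (hδ : 0 < δ) {u : P → ℂ} {z : P} (hu : DifferentiableAt ℝ u z)
    (A : P → ℝ × ℝ) : d1 (fmod δ u) z ^ 2 + d2 (fmod δ u) z ^ 2 ≤ eden A u z := by
  set p : P → ℝ := fun z => (u z).re with hp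
  set q : P → ℝ := fun z => (u z).im with hq
  have hpd : HasFDerivAt p (fderiv ℝ p z) z :=
    (Complex.reCLM.differentiableAt.comp z hu).hasFDerivAt
  have hqd : HasFDerivAt q (fderiv ℝ q z) z :=
    (Complex.imCLM.differentiableAt.comp z hu).hasFDerivAt
  have hn : ∀ z, ‖u z‖ ^ 2 = p z ^ 2 + q z ^ 2 := by
    intro z
    rw [← Complex.normSq_eq_norm_sq, Complex.normSq_apply]
    show (u z).re * (u z).re + (u z).im * (u z).im = (u z).re ^ 2 + (u z).im ^ 2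
    ring
  have h1 : HasFDerivAt (fun z => p z ^ 2 + q z ^ 2 + δ ^ 2) _ z :=
    ((hpd.pow 2).add (hqd.pow 2)).add_const (δ ^ 2)
  have hpos : 0 < p z ^ 2 + q z ^ 2 + δ ^ 2 := by positivity
  have h2 := h1.sqrt hpos.ne'
  have h3 : (fmod δ u) = fun z => Real.sqrt (p z ^ 2 + q z ^ 2 + δ ^ 2) := by
    funext z
    unfold fmod
    rw [hn]
  set f := Real.sqrt (p z ^ 2 + q z ^ 2 + δ ^ 2) with hf
  have hfpos : 0 < f := Real.sqrt_pos.2 hpos
  have hfsq : f ^ 2 = p z ^ 2 + q z ^ 2 + δ ^ 2 := Real.sq_sqrt hpos.le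
  have e1 : f * d1 (fmod δ u) z = p z * d1 p z + q z * d1 q z := by
    rw [h3]
    unfold d1
    have h4 : fderiv ℝ (fun z => Real.sqrt (p z ^ 2 + q z ^ 2 + δ ^ 2)) z = _ := h2.fderiv
    rw [h4]
    simp
    field_simp
  have e2 : f * d2 (fmod δ u) z = p z * d2 p z + q z * d2 q z := by
    rw [h3]
    unfold d2
    have h4 : fderiv ℝ (fun z => Real.sqrt (p z ^ 2 + q z ^ 2 + δ ^ 2)) z = _ := h2.fderiv
    rw [h4]
    simp
    field_simp
  rw [eden_real A hu]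
  change d1 (fmod δ u) z ^ 2 + d2 (fmod δ u) z ^ 2 ≤
    (d1 q z - (A z).1 * p z) ^ 2 + (d1 p z + (A z).1 * q z) ^ 2 +
      ((d2 q z - (A z).2 * p z) ^ 2 + (d2 p z + (A z).2 * q z) ^ 2)
  have key : ∀ x y a g : ℝ, f * g = p z * x + q z * y →
      g ^ 2 ≤ (y - a * p z) ^ 2 + (x + a * q z) ^ 2 := by
    intro x y a g hg
    have h5 : (f * g) ^ 2 ≤ (p z ^ 2 + q z ^ 2) * ((y - a * p z) ^ 2 + (x + a * q z) ^ 2) := by
      rw [hg]
      nlinarith [sq_nonneg (p z * (y - a * p z) - q z * (x + a * q z))]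
    have h6 : (p z ^ 2 + q z ^ 2) * ((y - a * p z) ^ 2 + (x + a * q z) ^ 2) ≤
        f ^ 2 * ((y - a * p z) ^ 2 + (x + a * q z) ^ 2) := by
      apply mul_le_mul_of_nonneg_right _ (by positivity)
      rw [hfsq]
      nlinarith [sq_nonneg δ]
    rw [mul_pow] at h5
    exact le_of_mul_le_mul_left (h5.trans h6) (by positivity)
  have k1 := key _ _ (A z).1 _ e1
  have k2 := key _ _ (A z).2 _ e2
  linarith

theorem norm_fderiv_le (f : P → ℝ) (z : P) :
    ‖fderiv ℝ f z‖ ^ 2 ≤ 2 * (d1 f z ^ 2 + d2 f z ^ 2) := by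
  have h1 : ‖fderiv ℝ f z‖ ≤ |d1 f z| + |d2 f z| := by
    apply ContinuousLinearMap.opNorm_le_bound _ (by positivity)
    intro v
    have e : fderiv ℝ f z v = v.1 * d1 f z + v.2 * d2 f z := by
      have : v = v.1 • ((1, 0) : P) + v.2 • ((0, 1) : P) := by ext <;> simp
      unfold d1 d2
      conv_lhs => rw [this]
      rw [map_add, map_smul, map_smul, smul_eq_mul, smul_eq_mul]
    rw [e, Real.norm_eq_abs]
    have h2 : |v.1| ≤ ‖v‖ := norm_fst_le v
    have h3 : |v.2| ≤ ‖v‖ := norm_snd_le v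
    calc |v.1 * d1 f z + v.2 * d2 f z| ≤ |v.1 * d1 f z| + |v.2 * d2 f z| := abs_add_le _ _
      _ = |v.1| * |d1 f z| + |v.2| * |d2 f z| := by rw [abs_mul, abs_mul]
      _ ≤ ‖v‖ * |d1 f z| + ‖v‖ * |d2 f z| := by gcongr
      _ = _ := by ring
  have h4 := pow_le_pow_left₀ (norm_nonneg _) h1 2
  nlinarith [sq_nonneg (|d1 f z| - |d2 f z|), sq_abs (d1 f z), sq_abs (d2 f z)]

end Pool.Agent.X151.MG
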