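import Pool.Agent.X151.MG.Lower

/-!
The lower bound for the magnetic energy on the unit disk, continued.
-/

namespace Pool.Agent.X151.MG

open MeasureTheory Set
open scoped ENNReal

/-- One-dimensional estimate. -/
theorem line {g g' : ℝ → ℝ} {I : Set ℝ} (hI : I = Ioo (-1 / 2 : ℝ) (1 / 2))
    (hg : ∀ s ∈ I, HasDerivAt g (g' s) s) (hg' : ContinuousOn g' I) {y y' : ℝ} (hy : y ∈ I)
    (hy' : y' ∈ I) : ENNReal.ofReal ((g y - g y') ^ 2) ≤ ∫⁻ s in I, ENNReal.ofReal (g' s ^ 2) := by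
  wlog h : y' ≤ y generalizing y y'
  · have := this hy' hy (le_of_not_ge h)
    rwa [show (g y - g y') ^ 2 = (g y' - g y) ^ 2 by ring]
  have hsub : Icc y' y ⊆ I := by
    rw [hI] at hy hy' ⊢
    intro s hs
    exact ⟨lt_of_lt_of_le hy'.1 hs.1, lt_of_le_of_lt hs.2 hy.2⟩
  have hlen : y - y' ≤ 1 := by
    rw [hI] at hy hy'
    linarith [hy.2, hy'.1]
  have hc : ContinuousOn g' (Icc y' y) := hg'.mono hsub
  have hint : IntervalIntegrable g' volume y' y :=
    ContinuousOn.intervalIntegrable (by rwa [uIcc_of_le h])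
  have hint2 : IntervalIntegrable (fun s => g' s ^ 2) volume y' y :=
    ContinuousOn.intervalIntegrable (by rw [uIcc_of_le h]; exact hc.pow 2)
  have hftc : ∫ s in y'..y, g' s = g y - g y' :=
    intervalIntegral.integral_eq_sub_of_hasDerivAt (fun s hs => hg s (hsub (by
      rwa [uIcc_of_le h] at hs))) hint
  set m := g y - g y' with hm
  have hsq : m ^ 2 ≤ ∫ s in y'..y, g' s ^ 2 := by
    have h1 : ∫ s in y'..y, (2 * m * g' s) ≤ ∫ s in y'..y, (m ^ 2 + g' s ^ 2) := by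
      apply intervalIntegral.integral_mono_on h (hint.const_mul _)
        (intervalIntegrable_const.add hint2)
      intro s _
      nlinarith [sq_nonneg (m - g' s)]
    rw [intervalIntegral.integral_const_mul, hftc,
      intervalIntegral.integral_add intervalIntegrable_const hint2,
      intervalIntegral.integral_const, smul_eq_mul] at h1
    have h2 : (y - y') * m ^ 2 ≤ 1 * m ^ 2 := mul_le_mul_of_nonneg_right hlen (sq_nonneg _)
    nlinarith
  calc ENNReal.ofReal (m ^ 2) ≤ ENNReal.ofReal (∫ s in y'..y, g' s ^ 2) :=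
        ENNReal.ofReal_le_ofReal hsq
    _ = ∫⁻ s in Ioc y' y, ENNReal.ofReal (g' s ^ 2) := by
        rw [intervalIntegral.integral_of_le h, ofReal_integral_eq_lintegral_ofReal]
        · rwa [intervalIntegrable_iff_integrableOn_Ioc_of_le h] at hint2
        · exact Filter.Eventually.of_forall fun t => sq_nonneg _
    _ ≤ _ := lintegral_mono_set (Ioc_subset_Icc_self.trans hsub)

/-- The rectangle `T`. -/
def rect (a c : ℝ) : Set P := Ioo (-a) a ×ˢ Ioo (-c) c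

theorem two_sq (a b : ℝ) : ENNReal.ofReal (a ^ 2) ≤
    2 * ENNReal.ofReal (b ^ 2) + 2 * ENNReal.ofReal ((a - b) ^ 2) := by
  have : a ^ 2 ≤ 2 * b ^ 2 + 2 * (a - b) ^ 2 := by nlinarith [sq_nonneg (a - 2 * b)]
  calc ENNReal.ofReal (a ^ 2) ≤ ENNReal.ofReal (2 * b ^ 2 + 2 * (a - b) ^ 2) :=
        ENNReal.ofReal_le_ofReal this
    _ = _ := by
        rw [ENNReal.ofReal_add (by positivity) (by positivity), ENNReal.ofReal_mul two_pos.le,
          ENNReal.ofReal_mul two_pos.le]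
        simp

/-- Estimate on the rectangle by its thin middle part. -/
theorem low3 {Ω : Set P} (hΩ : IsOpen Ω) (hT : rect (1 / 4) (1 / 2) ⊆ Ω) {f : P → ℝ}
    (hf : ContDiffOn ℝ 1 f Ω) {ε : ℝ} (hε1 : ε ≤ 1) :
    ENNReal.ofReal ε * ∫⁻ z in rect (1 / 4) (1 / 2), ENNReal.ofReal (f z ^ 2) ≤
      2 * (∫⁻ z in rect (1 / 4) (ε / 2), ENNReal.ofReal (f z ^ 2)) +
      2 * ENNReal.ofReal ε * ∫⁻ z in rect (1 / 4) (1 / 2), ENNReal.ofReal (d2 f z ^ 2) := by
  have hTopen : IsOpen (rect (1 / 4) (1 / 2)) := isOpen_Ioo.prod isOpen_Ioo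
  have hJopen : IsOpen (rect (1 / 4) (ε / 2)) := isOpen_Ioo.prod isOpen_Ioo
  have hJT : rect (1 / 4) (ε / 2) ⊆ rect (1 / 4) (1 / 2) := by
    apply prod_mono le_rfl
    apply Ioo_subset_Ioo <;> linarith
  have hfd : ContinuousOn (fun z => fderiv ℝ f z) Ω := hf.continuousOn_fderiv_of_isOpen hΩ le_rfl
  have hd2 : ContinuousOn (d2 f) Ω := hfd.clm_apply continuousOn_const
  have m1 : AEMeasurable (fun z => ENNReal.ofReal (f z ^ 2))
      (volume.restrict (rect (1 / 4) (1 / 2))) :=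
    (((hf.continuousOn.mono hT).pow 2).aemeasurable hTopen.measurableSet).ennreal_ofReal
  have m2 : AEMeasurable (fun z => ENNReal.ofReal (f z ^ 2))
      (volume.restrict (rect (1 / 4) (ε / 2))) :=
    (((hf.continuousOn.mono (hJT.trans hT)).pow 2).aemeasurable
      hJopen.measurableSet).ennreal_ofReal
  have m3 : AEMeasurable (fun z => ENNReal.ofReal (d2 f z ^ 2))
      (volume.restrict (rect (1 / 4) (1 / 2))) :=
    (((hd2.mono hT).pow 2).aemeasurable hTopen.measurableSet).ennreal_ofReal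
  have p1 : ∫⁻ z in rect (1 / 4) (1 / 2), ENNReal.ofReal (f z ^ 2) =
      ∫⁻ x in Ioo (-(1 / 4) : ℝ) (1 / 4), ∫⁻ y in Ioo (-(1 / 2) : ℝ) (1 / 2),
        ENNReal.ofReal (f (x, y) ^ 2) := setLIntegral_prod _ m1
  have p2 : ∫⁻ z in rect (1 / 4) (ε / 2), ENNReal.ofReal (f z ^ 2) =
      ∫⁻ x in Ioo (-(1 / 4) : ℝ) (1 / 4), ∫⁻ y in Ioo (-(ε / 2) : ℝ) (ε / 2),
        ENNReal.ofReal (f (x, y) ^ 2) := setLIntegral_prod _ m2
  have p3 : ∫⁻ z in rect (1 / 4) (1 / 2), ENNReal.ofReal (d2 f z ^ 2) =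
      ∫⁻ x in Ioo (-(1 / 4) : ℝ) (1 / 4), ∫⁻ y in Ioo (-(1 / 2) : ℝ) (1 / 2),
        ENNReal.ofReal (d2 f (x, y) ^ 2) := setLIntegral_prod _ m3
  rw [p1, p2, p3]
  -- the estimate on the lines
  have hline : ∀ x ∈ Ioo (-(1 / 4) : ℝ) (1 / 4),
      ENNReal.ofReal ε * ∫⁻ y in Ioo (-(1 / 2) : ℝ) (1 / 2), ENNReal.ofReal (f (x, y) ^ 2) ≤
      2 * (∫⁻ y in Ioo (-(ε / 2) : ℝ) (ε / 2), ENNReal.ofReal (f (x, y) ^ 2)) +
      2 * ENNReal.ofReal ε * ∫⁻ y in Ioo (-(1 / 2) : ℝ) (1 / 2),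
        ENNReal.ofReal (d2 f (x, y) ^ 2) := by
    intro x hx
    have hI : Ioo (-(1 / 2) : ℝ) (1 / 2) = Ioo (-1 / 2 : ℝ) (1 / 2) := by norm_num
    set G := ∫⁻ y in Ioo (-(1 / 2) : ℝ) (1 / 2), ENNReal.ofReal (d2 f (x, y) ^ 2) with hG
    have hder : ∀ s ∈ Ioo (-(1 / 2) : ℝ) (1 / 2),
        HasDerivAt (fun s => f (x, s)) (d2 f (x, s)) s := by
      intro s hs
      have h1 : HasFDerivAt f (fderiv ℝ f (x, s)) (x, s) :=
        ((hf.differentiableOn one_ne_zero).differentiableAt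
          (hΩ.mem_nhds (hT ⟨hx, hs⟩))).hasFDerivAt
      have h2 : HasDerivAt (fun s : ℝ => ((x, s) : P)) (0, 1) s :=
        (hasDerivAt_const s x).prodMk (hasDerivAt_id s)
      exact h1.comp_hasDerivAt s h2
    have hcont : ContinuousOn (fun s => d2 f (x, s)) (Ioo (-(1 / 2) : ℝ) (1 / 2)) := by
      apply hd2.comp (by fun_prop)
      intro s hs
      exact hT ⟨hx, hs⟩
    have h1 : ∀ y ∈ Ioo (-(1 / 2) : ℝ) (1 / 2), ∀ y' ∈ Ioo (-(ε / 2) : ℝ) (ε / 2),
        ENNReal.ofReal (f (x, y) ^ 2) ≤ 2 * ENNReal.ofReal (f (x, y') ^ 2) + 2 * G := by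
      intro y hy y' hy'
      have hy'' : y' ∈ Ioo (-(1 / 2) : ℝ) (1 / 2) := ⟨by linarith [hy'.1], by linarith [hy'.2]⟩
      refine (two_sq _ (f (x, y'))).trans ?_
      apply add_le_add le_rfl
      apply mul_le_mul' le_rfl
      exact line hI hder hcont hy hy''
    have h2 : ∀ y ∈ Ioo (-(1 / 2) : ℝ) (1 / 2), ENNReal.ofReal ε * ENNReal.ofReal (f (x, y) ^ 2) ≤
        2 * (∫⁻ y' in Ioo (-(ε / 2) : ℝ) (ε / 2), ENNReal.ofReal (f (x, y') ^ 2)) +
          2 * ENNReal.ofReal ε * G := by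
      intro y hy
      calc ENNReal.ofReal ε * ENNReal.ofReal (f (x, y) ^ 2) =
          ∫⁻ y' in Ioo (-(ε / 2) : ℝ) (ε / 2), ENNReal.ofReal (f (x, y) ^ 2) := by
            rw [lintegral_const, Measure.restrict_apply_univ, Real.volume_Ioo, mul_comm]
            congr 2
            ring
        _ ≤ ∫⁻ y' in Ioo (-(ε / 2) : ℝ) (ε / 2), (2 * ENNReal.ofReal (f (x, y') ^ 2) + 2 * G) :=
            setLIntegral_mono' measurableSet_Ioo (h1 y hy)
        _ = _ := by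
            rw [lintegral_add_right _ measurable_const, lintegral_const_mul' _ _
              ENNReal.ofNat_ne_top, lintegral_const, Measure.restrict_apply_univ,
              Real.volume_Ioo]
            congr 1
            have : ε / 2 - -(ε / 2) = ε := by ring
            rw [this]
            ring
    calc ENNReal.ofReal ε * ∫⁻ y in Ioo (-(1 / 2) : ℝ) (1 / 2), ENNReal.ofReal (f (x, y) ^ 2) =
        ∫⁻ y in Ioo (-(1 / 2) : ℝ) (1 / 2), ENNReal.ofReal ε * ENNReal.ofReal (f (x, y) ^ 2) := by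
          rw [lintegral_const_mul' _ _ ENNReal.ofReal_ne_top]
      _ ≤ ∫⁻ y in Ioo (-(1 / 2) : ℝ) (1 / 2),
          (2 * (∫⁻ y' in Ioo (-(ε / 2) : ℝ) (ε / 2), ENNReal.ofReal (f (x, y') ^ 2)) +
          2 * ENNReal.ofReal ε * G) := setLIntegral_mono' measurableSet_Ioo h2
      _ = _ := by
          rw [lintegral_const, Measure.restrict_apply_univ, Real.volume_Ioo]
          norm_num
  calc ENNReal.ofReal ε * ∫⁻ x in Ioo (-(1 / 4) : ℝ) (1 / 4),
        ∫⁻ y in Ioo (-(1 / 2) : ℝ) (1 / 2), ENNReal.ofReal (f (x, y) ^ 2) =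
      ∫⁻ x in Ioo (-(1 / 4) : ℝ) (1 / 4), ENNReal.ofReal ε *
        ∫⁻ y in Ioo (-(1 / 2) : ℝ) (1 / 2), ENNReal.ofReal (f (x, y) ^ 2) := by
        rw [lintegral_const_mul' _ _ ENNReal.ofReal_ne_top]
    _ ≤ ∫⁻ x in Ioo (-(1 / 4) : ℝ) (1 / 4),
      (2 * (∫⁻ y in Ioo (-(ε / 2) : ℝ) (ε / 2), ENNReal.ofReal (f (x, y) ^ 2)) +
      2 * ENNReal.ofReal ε * ∫⁻ y in Ioo (-(1 / 2) : ℝ) (1 / 2),
        ENNReal.ofReal (d2 f (x, y) ^ 2)) := setLIntegral_mono' measurableSet_Ioo hline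
    _ = _ := by
        have m4 : AEMeasurable (fun x => ∫⁻ y in Ioo (-(1 / 2) : ℝ) (1 / 2),
            ENNReal.ofReal (d2 f (x, y) ^ 2)) (volume.restrict (Ioo (-(1 / 4) : ℝ) (1 / 4))) := by
          have m5 : AEMeasurable (fun z => ENNReal.ofReal (d2 f z ^ 2))
              ((volume.restrict (Ioo (-(1 / 4) : ℝ) (1 / 4))).prod
                (volume.restrict (Ioo (-(1 / 2) : ℝ) (1 / 2)))) := by
            rw [Measure.prod_restrict]
            exact m3
          exact m5.lintegral_prod_right'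
        rw [lintegral_add_right' _ (m4.const_mul _), lintegral_const_mul' _ _
          ENNReal.ofNat_ne_top, lintegral_const_mul' _ _ (ENNReal.mul_ne_top ENNReal.ofNat_ne_top
          ENNReal.ofReal_ne_top)]

/-- From the rectangle to the whole domain. -/
theorem low4 {Ω T : Set P} (hΩ : IsOpen Ω) (hΩc : Convex ℝ Ω) {D : ℝ}
    (hD : ∀ x ∈ Ω, ∀ y ∈ Ω, ‖x - y‖ ≤ D) (hTo : IsOpen T) (hT : T ⊆ Ω) {f : P → ℝ}
    (hf : ContDiffOn ℝ 1 f Ω) :
    volume T * ∫⁻ z in Ω, ENNReal.ofReal (f z ^ 2) ≤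
      2 * (volume Ω * ∫⁻ z in T, ENNReal.ofReal (f z ^ 2)) +
      2 * (ENNReal.ofReal (D ^ 2) * (ENNReal.ofReal (2 ^ 2) * volume Ω *
        ∫⁻ z in Ω, ENNReal.ofReal (‖fderiv ℝ f z‖ ^ 2))) := by
  have m1 : AEMeasurable (fun z => ENNReal.ofReal (f z ^ 2)) (volume.restrict T) :=
    (((hf.continuousOn.mono hT).pow 2).aemeasurable hTo.measurableSet).ennreal_ofReal
  have h1 : ∀ x, volume T * ENNReal.ofReal (f x ^ 2) ≤
      2 * (∫⁻ y in T, ENNReal.ofReal ((f x - f y) ^ 2)) +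
      2 * ∫⁻ y in T, ENNReal.ofReal (f y ^ 2) := by
    intro x
    calc volume T * ENNReal.ofReal (f x ^ 2) = ∫⁻ y in T, ENNReal.ofReal (f x ^ 2) := by
          rw [lintegral_const, Measure.restrict_apply_univ, mul_comm]
      _ ≤ ∫⁻ y in T, (2 * ENNReal.ofReal ((f x - f y) ^ 2) + 2 * ENNReal.ofReal (f y ^ 2)) := by
          apply lintegral_mono
          intro y
          refine (two_sq (f x) (f y)).trans (le_of_eq ?_)
          ring
      _ = _ := by
          rw [lintegral_add_right' _ (m1.const_mul _), lintegral_const_mul' _ _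
            ENNReal.ofNat_ne_top, lintegral_const_mul' _ _ ENNReal.ofNat_ne_top]
  have h2 := double hΩ hΩc hD hf
  have h3 : ∫⁻ x, dens Ω f x = ∫⁻ z in Ω, ENNReal.ofReal (‖fderiv ℝ f z‖ ^ 2) := by
    unfold dens
    rw [lintegral_indicator hΩ.measurableSet]
  rw [h3] at h2
  calc volume T * ∫⁻ z in Ω, ENNReal.ofReal (f z ^ 2) =
      ∫⁻ z in Ω, volume T * ENNReal.ofReal (f z ^ 2) := by
        rw [lintegral_const_mul'']
        exact ((hf.continuousOn.pow 2).aemeasurable hΩ.measurableSet).ennreal_ofReal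
    _ ≤ ∫⁻ x in Ω, (2 * (∫⁻ y in T, ENNReal.ofReal ((f x - f y) ^ 2)) +
      2 * ∫⁻ y in T, ENNReal.ofReal (f y ^ 2)) := lintegral_mono h1
    _ = 2 * (∫⁻ x in Ω, ∫⁻ y in T, ENNReal.ofReal ((f x - f y) ^ 2)) +
      2 * (∫⁻ y in T, ENNReal.ofReal (f y ^ 2)) * volume Ω := by
        rw [lintegral_add_right _ measurable_const, lintegral_const_mul' _ _
          ENNReal.ofNat_ne_top, lintegral_const, Measure.restrict_apply_univ]
    _ ≤ 2 * (∫⁻ x in Ω, ∫⁻ y in Ω, ENNReal.ofReal ((f x - f y) ^ 2)) +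
      2 * (∫⁻ y in T, ENNReal.ofReal (f y ^ 2)) * volume Ω := by
        apply add_le_add _ le_rfl
        apply mul_le_mul' le_rfl
        apply lintegral_mono
        intro x
        exact lintegral_mono_set hT
    _ ≤ 2 * (ENNReal.ofReal (D ^ 2) * (ENNReal.ofReal (2 ^ 2) * volume Ω *
        ∫⁻ z in Ω, ENNReal.ofReal (‖fderiv ℝ f z‖ ^ 2))) +
      2 * (∫⁻ y in T, ENNReal.ofReal (f y ^ 2)) * volume Ω :=
        add_le_add (mul_le_mul' le_rfl h2) le_rfl
    _ = _ := by ring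

end Pool.Agent.X151.MG
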