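import Pool.Agent.X151.MG.Lower2

/-!
The lower bound for the lowest eigenvalue with a field on a thin ellipse.
-/

namespace Pool.Agent.X151.MG

open MeasureTheory Set
open scoped ENNReal

/-- The open disk of radius `R` centred at the origin. -/
def disk (R : ℝ) : Set P := {p | p.1 ^ 2 + p.2 ^ 2 < R ^ 2}

/-- The open ellipse with semi-axes `a` and `c`. -/
def ell (a c : ℝ) : Set P := {p | (p.1 / a) ^ 2 + (p.2 / c) ^ 2 < 1}

theorem disk_open (R : ℝ) : IsOpen (disk R) :=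
  isOpen_lt (by fun_prop) continuous_const

theorem ell_open (a c : ℝ) : IsOpen (ell a c) :=
  isOpen_lt (by fun_prop) continuous_const

theorem disk_convex : Convex ℝ (disk 1) := by
  intro x hx y hy a b ha hb hab
  have hx' : x.1 ^ 2 + x.2 ^ 2 < 1 ^ 2 := hx
  have hy' : y.1 ^ 2 + y.2 ^ 2 < 1 ^ 2 := hy
  show (a • x + b • y).1 ^ 2 + (a • x + b • y).2 ^ 2 < 1 ^ 2
  have e1 : (a • x + b • y).1 = a * x.1 + b * y.1 := rfl
  have e2 : (a • x + b • y).2 = a * x.2 + b * y.2 := rfl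
  rw [e1, e2]
  have hb' : b = 1 - a := by linarith
  have h1 : (a * x.1 + b * y.1) ^ 2 + (a * x.2 + b * y.2) ^ 2 =
      a * (x.1 ^ 2 + x.2 ^ 2) + b * (y.1 ^ 2 + y.2 ^ 2) -
        a * b * ((x.1 - y.1) ^ 2 + (x.2 - y.2) ^ 2) := by rw [hb']; ring
  rw [h1]
  have h2 : 0 ≤ a * b * ((x.1 - y.1) ^ 2 + (x.2 - y.2) ^ 2) := by positivity
  rcases eq_or_lt_of_le ha with h | h
  · rw [← h] at hab ⊢
    have : b = 1 := by linarith
    rw [this]; nlinarith
  · have h3 : a * (x.1 ^ 2 + x.2 ^ 2) < a * 1 := mul_lt_mul_of_pos_left (by linarith) h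
    have h4 : b * (y.1 ^ 2 + y.2 ^ 2) ≤ b * 1 := mul_le_mul_of_nonneg_left (by linarith) hb
    linarith

theorem disk_sub {p : P} (hp : p ∈ disk 1) : |p.1| < 1 ∧ |p.2| < 1 := by
  have h : p.1 ^ 2 + p.2 ^ 2 < 1 ^ 2 := hp
  constructor
  · rw [← sq_lt_one_iff_abs_lt_one]; nlinarith [sq_nonneg p.2]
  · rw [← sq_lt_one_iff_abs_lt_one]; nlinarith [sq_nonneg p.1]

theorem disk_diam : ∀ x ∈ disk 1, ∀ y ∈ disk 1, ‖x - y‖ ≤ 2 := by
  intro x hx y hy
  obtain ⟨h1, h2⟩ := disk_sub hx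
  obtain ⟨h3, h4⟩ := disk_sub hy
  rw [Prod.norm_def, max_le_iff]
  constructor
  · show |x.1 - y.1| ≤ 2
    exact (abs_sub _ _).trans (by linarith)
  · show |x.2 - y.2| ≤ 2
    exact (abs_sub _ _).trans (by linarith)

theorem disk_vol : volume (disk 1) ≤ 4 := by
  have h : disk 1 ⊆ Ioo (-1 : ℝ) 1 ×ˢ Ioo (-1 : ℝ) 1 := by
    intro p hp
    obtain ⟨h1, h2⟩ := disk_sub hp
    exact ⟨abs_lt.1 h1, abs_lt.1 h2⟩
  refine (measure_mono h).trans ?_
  rw [Measure.volume_eq_prod, Measure.prod_prod, Real.volume_Ioo,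
    ← ENNReal.ofReal_mul (by norm_num)]
  norm_num

theorem rect_open (a c : ℝ) : IsOpen (rect a c) := isOpen_Ioo.prod isOpen_Ioo

theorem rect_vol (a c : ℝ) (ha : 0 < a) :
    volume (rect a c) = ENNReal.ofReal (4 * a * c) := by
  unfold rect
  rw [Measure.volume_eq_prod, Measure.prod_prod, Real.volume_Ioo, Real.volume_Ioo,
    ← ENNReal.ofReal_mul (by linarith)]
  congr 1
  ring

theorem rect_sub : rect (1 / 4) (1 / 2) ⊆ disk 1 := by
  rintro ⟨x, y⟩ ⟨⟨h1, h2⟩, h3, h4⟩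
  show x ^ 2 + y ^ 2 < 1 ^ 2
  simp only at h1 h2 h3 h4
  nlinarith

theorem ell_sub {ε : ℝ} (hε : 0 < ε) (hε1 : ε ≤ 1 / 2) : ell (1 / 2) ε ⊆ disk 1 := by
  rintro ⟨x, y⟩ h
  have h' : (x / (1 / 2)) ^ 2 + (y / ε) ^ 2 < 1 := h
  show x ^ 2 + y ^ 2 < 1 ^ 2
  have h1 : y ^ 2 ≤ (y / ε) ^ 2 / 4 := by
    rw [div_pow, div_div, le_div_iff₀ (by positivity)]
    have : ε ^ 2 * 4 ≤ 1 := by nlinarith
    nlinarith [sq_nonneg y]
  have h2 : (x / (1 / 2)) ^ 2 = 4 * x ^ 2 := by ring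
  rw [h2] at h'
  nlinarith [sq_nonneg x, sq_nonneg (y / ε)]

/-- The cut-off function. -/
theorem cutoff {ε : ℝ} (hε : 0 < ε) : ∃ (φ : P → ℝ) (K : ℝ), ContDiff ℝ 1 φ ∧
    HasCompactSupport φ ∧ tsupport φ ⊆ ell (1 / 2) ε ∧ (∀ z, 0 ≤ φ z) ∧ (∀ z, φ z ≤ 1) ∧
    (∀ z ∈ rect (1 / 4) (ε / 2), φ z = 1) ∧ 0 ≤ K ∧ (∀ z, d1 φ z ^ 2 + d2 φ z ^ 2 ≤ K) := by
  let f : ContDiffBump (0 : ℝ) := ⟨1 / 4, 3 / 10, by norm_num, by norm_num⟩
  let g : ContDiffBump (0 : ℝ) := ⟨ε / 2, 3 / 5 * ε, by positivity, by linarith⟩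
  have hf : ContDiff ℝ 1 f := f.contDiff
  have hg : ContDiff ℝ 1 g := g.contDiff
  set φ : P → ℝ := fun z => f z.1 * g z.2 with hφ
  have hφd : ContDiff ℝ 1 φ := (hf.comp contDiff_fst).mul (hg.comp contDiff_snd)
  have hsup : Function.support φ ⊆ Icc (-(3 / 10) : ℝ) (3 / 10) ×ˢ Icc (-(3 / 5 * ε)) (3 / 5 * ε) := by
    intro z hz
    have h1 : f z.1 ≠ 0 := left_ne_zero_of_mul hz
    have h2 : g z.2 ≠ 0 := right_ne_zero_of_mul hz
    have h3 : z.1 ∈ Metric.ball (0 : ℝ) (3 / 10) := by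
      rw [← f.support_eq]; exact h1
    have h4 : z.2 ∈ Metric.ball (0 : ℝ) (3 / 5 * ε) := by
      rw [← g.support_eq]; exact h2
    rw [Metric.mem_ball, Real.dist_eq, sub_zero, abs_lt] at h3 h4
    exact ⟨⟨h3.1.le, h3.2.le⟩, ⟨h4.1.le, h4.2.le⟩⟩
  have htsup : tsupport φ ⊆ Icc (-(3 / 10) : ℝ) (3 / 10) ×ˢ Icc (-(3 / 5 * ε)) (3 / 5 * ε) :=
    closure_minimal hsup (isClosed_Icc.prod isClosed_Icc)
  have hcs : HasCompactSupport φ :=
    HasCompactSupport.of_support_subset_isCompact (isCompact_Icc.prod isCompact_Icc) hsup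
  have hcd1 : Continuous (d1 φ) := cont_d1 hφd
  have hcd2 : Continuous (d2 φ) := cont_d2 hφd
  have hbd : ∃ K, ∀ z, ‖d1 φ z ^ 2 + d2 φ z ^ 2‖ ≤ K := by
    apply HasCompactSupport.exists_bound_of_continuous
    · apply HasCompactSupport.of_support_subset_isCompact hcs
      intro z hz
      by_contra h
      apply hz
      have : fderiv ℝ φ z = 0 := by
        by_contra h'
        exact h (support_fderiv_subset ℝ h')
      show (fderiv ℝ φ z) (1, 0) ^ 2 + (fderiv ℝ φ z) (0, 1) ^ 2 = 0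
      rw [this]; simp
    · exact (hcd1.pow 2).add (hcd2.pow 2)
  obtain ⟨K, hK⟩ := hbd
  refine ⟨φ, K, hφd, hcs, ?_, fun z => mul_nonneg f.nonneg g.nonneg, fun z =>
    mul_le_one₀ f.le_one g.nonneg g.le_one, ?_, (norm_nonneg _).trans (hK 0), fun z =>
    (le_abs_self _).trans (hK z)⟩
  · refine htsup.trans ?_
    rintro ⟨x, y⟩ ⟨⟨h1, h2⟩, h3, h4⟩
    simp only at h1 h2 h3 h4
    show (x / (1 / 2)) ^ 2 + (y / ε) ^ 2 < 1
    have h5 : x ^ 2 ≤ 9 / 100 := by nlinarith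
    have h6 : (y / ε) ^ 2 ≤ 9 / 25 := by
      rw [div_pow, div_le_iff₀ (by positivity)]
      nlinarith
    have h7 : (x / (1 / 2)) ^ 2 = 4 * x ^ 2 := by ring
    rw [h7]
    linarith
  · rintro ⟨x, y⟩ ⟨⟨h1, h2⟩, h3, h4⟩
    simp only at h1 h2 h3 h4
    have h5 : f x = 1 := f.one_of_mem_closedBall (by
      rw [Metric.mem_closedBall, Real.dist_eq, sub_zero, abs_le]
      exact ⟨h1.le, h2.le⟩)
    have h6 : g y = 1 := g.one_of_mem_closedBall (by
      rw [Metric.mem_closedBall, Real.dist_eq, sub_zero, abs_le]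
      exact ⟨h3.le, h4.le⟩)
    show f x * g y = 1
    rw [h5, h6, one_mul]

/-- The combination of the estimates for fixed `δ`. -/
theorem comb {ε : ℝ} (hε : 0 < ε) (hε1 : ε ≤ 1 / 2) {A : P → ℝ × ℝ} {u : P → ℂ}
    (hu : ContDiffOn ℝ 1 u (disk 1)) {δ : ℝ} (hδ : 0 < δ) :
    ENNReal.ofReal (ε / 2) * mass (disk 1) u ≤
      16 * (mass (rect (1 / 4) (ε / 2)) u + ENNReal.ofReal (δ ^ 2)) +
        ENNReal.ofReal (272 * ε) * energy A (disk 1) u := by
  have hΩ := disk_open 1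
  have hf := fmod_contDiff hδ hu
  have hud : ∀ z ∈ disk 1, DifferentiableAt ℝ u z := fun z hz =>
    (hu.differentiableOn one_ne_zero).differentiableAt (hΩ.mem_nhds hz)
  set f := fmod δ u with hfdef
  have h3 := low3 hΩ rect_sub hf (ε := ε) (by linarith)
  have h4 := low4 hΩ disk_convex disk_diam (rect_open _ _) rect_sub hf
  set Q := energy A (disk 1) u with hQ
  have hQe : Q = ∫⁻ z in disk 1, ENNReal.ofReal (eden A u z) := rfl
  set FT := ∫⁻ z in rect (1 / 4) (1 / 2), ENNReal.ofReal (f z ^ 2) with hFT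
  set FO := ∫⁻ z in disk 1, ENNReal.ofReal (f z ^ 2) with hFO
  set FW := ∫⁻ z in rect (1 / 4) (ε / 2), ENNReal.ofReal (f z ^ 2) with hFW
  have g1 : ∫⁻ z in rect (1 / 4) (1 / 2), ENNReal.ofReal (d2 f z ^ 2) ≤ Q := by
    rw [hQe]
    calc ∫⁻ z in rect (1 / 4) (1 / 2), ENNReal.ofReal (d2 f z ^ 2) ≤
        ∫⁻ z in disk 1, ENNReal.ofReal (d2 f z ^ 2) := lintegral_mono_set rect_sub
      _ ≤ _ := by
        apply setLIntegral_mono' hΩ.measurableSet
        intro z hz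
        apply ENNReal.ofReal_le_ofReal
        have := fmod_deriv hδ (hud z hz) A
        nlinarith [sq_nonneg (d1 (fmod δ u) z)]
  have g2 : ∫⁻ z in disk 1, ENNReal.ofReal (‖fderiv ℝ f z‖ ^ 2) ≤ 2 * Q := by
    rw [hQe, ← lintegral_const_mul' _ _ ENNReal.ofNat_ne_top]
    apply setLIntegral_mono' hΩ.measurableSet
    intro z hz
    have h5 : ‖fderiv ℝ f z‖ ^ 2 ≤ 2 * eden A u z := by
      refine (norm_fderiv_le f z).trans ?_
      have := fmod_deriv hδ (hud z hz) A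
      linarith
    calc ENNReal.ofReal (‖fderiv ℝ f z‖ ^ 2) ≤ ENNReal.ofReal (2 * eden A u z) :=
          ENNReal.ofReal_le_ofReal h5
      _ = _ := by rw [ENNReal.ofReal_mul two_pos.le]; simp
  have g3 : mass (disk 1) u ≤ FO := by
    unfold mass
    apply lintegral_mono
    intro z
    apply ENNReal.ofReal_le_ofReal
    rw [hfdef, fmod_sq]
    linarith [sq_nonneg δ]
  have g4 : FW ≤ mass (rect (1 / 4) (ε / 2)) u + ENNReal.ofReal (δ ^ 2) := by
    unfold mass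
    calc FW = ∫⁻ z in rect (1 / 4) (ε / 2), (ENNReal.ofReal (‖u z‖ ^ 2) +
          ENNReal.ofReal (δ ^ 2)) := by
          rw [hFW]
          congr 1
          funext z
          rw [hfdef, fmod_sq, ENNReal.ofReal_add (by positivity) (by positivity)]
      _ = (∫⁻ z in rect (1 / 4) (ε / 2), ENNReal.ofReal (‖u z‖ ^ 2)) +
          ENNReal.ofReal (δ ^ 2) * volume (rect (1 / 4) (ε / 2)) := by
          rw [lintegral_add_right _ measurable_const, lintegral_const,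
            Measure.restrict_apply_univ]
      _ ≤ _ := by
          apply add_le_add le_rfl
          calc ENNReal.ofReal (δ ^ 2) * volume (rect (1 / 4) (ε / 2)) ≤
              ENNReal.ofReal (δ ^ 2) * 1 := by
                apply mul_le_mul' le_rfl
                rw [rect_vol _ _ (by norm_num), ENNReal.ofReal_le_one]
                linarith
            _ = _ := mul_one _
  rw [rect_vol _ _ (by norm_num)] at h4
  have e0 : (4 * (1 / 4) * (1 / 2) : ℝ) = 1 / 2 := by norm_num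
  rw [e0] at h4
  have hV := disk_vol
  -- combine
  have k1 : ENNReal.ofReal (1 / 2) * FO ≤ 8 * FT + 256 * Q := by
    calc ENNReal.ofReal (1 / 2) * FO ≤ 2 * (volume (disk 1) * FT) +
        2 * (ENNReal.ofReal (2 ^ 2) * (ENNReal.ofReal (2 ^ 2) * volume (disk 1) *
        ∫⁻ z in disk 1, ENNReal.ofReal (‖fderiv ℝ f z‖ ^ 2))) := h4
      _ ≤ 2 * (4 * FT) + 2 * (ENNReal.ofReal (2 ^ 2) * (ENNReal.ofReal (2 ^ 2) * 4 *
        (2 * Q))) := by gcongr
      _ = _ := by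
        have : ENNReal.ofReal (2 ^ 2) = 4 := by norm_num
        rw [this]
        ring
  have k2 : ENNReal.ofReal ε * FT ≤ 2 * FW + 2 * ENNReal.ofReal ε * Q :=
    h3.trans (add_le_add le_rfl (mul_le_mul' le_rfl g1))
  have e1 : ENNReal.ofReal (ε / 2) = ENNReal.ofReal ε * ENNReal.ofReal (1 / 2) := by
    rw [← ENNReal.ofReal_mul hε.le]
    congr 1
    ring
  have e2 : ENNReal.ofReal (272 * ε) = 272 * ENNReal.ofReal ε := by
    rw [ENNReal.ofReal_mul (by norm_num)]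
    norm_num
  rw [e1, e2]
  calc ENNReal.ofReal ε * ENNReal.ofReal (1 / 2) * mass (disk 1) u ≤
      ENNReal.ofReal ε * ENNReal.ofReal (1 / 2) * FO := mul_le_mul' le_rfl g3
    _ = ENNReal.ofReal ε * (ENNReal.ofReal (1 / 2) * FO) := by ring
    _ ≤ ENNReal.ofReal ε * (8 * FT + 256 * Q) := mul_le_mul' le_rfl k1
    _ = 8 * (ENNReal.ofReal ε * FT) + 256 * ENNReal.ofReal ε * Q := by ring
    _ ≤ 8 * (2 * FW + 2 * ENNReal.ofReal ε * Q) + 256 * ENNReal.ofReal ε * Q := by gcongr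
    _ = 16 * FW + 272 * ENNReal.ofReal ε * Q := by ring
    _ ≤ _ := by gcongr

/-- The lower bound. -/
theorem lower {ε : ℝ} (hε : 0 < ε) (hε1 : ε ≤ 1 / 2) : ∃ B : ℝ, ∀ b : ℝ, B ≤ b →
    ∀ (A : P → ℝ × ℝ), IsPotential b (disk 1) (ell (1 / 2) ε) A → ∀ u : P → ℂ,
      IsTest (disk 1) u → mass (disk 1) u ≤ 1092 * energy A (disk 1) u := by
  obtain ⟨φ, K, hφ, hφc, hφs, hφ0, hφ1, hφω, hK, hφK⟩ := cutoff hε
  refine ⟨max (32 / ε) (128 * K / ε), fun b hb A hA u hu => ?_⟩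
  have hb1 : 32 ≤ ε * b := by
    have := (le_max_left _ _).trans hb
    rw [div_le_iff₀ hε] at this
    linarith
  have hb2 : 128 * K ≤ ε * b := by
    have := (le_max_right _ _).trans hb
    rw [div_le_iff₀ hε] at this
    linarith
  have hb0 : 0 < b := by
    by_contra h
    push Not at h
    nlinarith
  obtain ⟨hud, hM, hD, -⟩ := hu
  have h1 := low1 hb0.le (disk_open 1) (ell_sub hε hε1) hA hφ hφc hφs hφ0 hφ1
    (rect_open _ _).measurableSet hφω hK hφK hud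
  by_cases hQ : energy A (disk 1) u = ∞
  · rw [hQ, ENNReal.mul_top (by norm_num)]
    exact le_top
  have hm : mass (rect (1 / 4) (ε / 2)) u ≠ ∞ := by
    refine ne_top_of_le_ne_top hM.ne ?_
    apply lintegral_mono_set
    refine Subset.trans ?_ rect_sub
    apply prod_mono le_rfl
    apply Ioo_subset_Ioo <;> linarith
  have h2 : ∀ δ : ℝ, 0 < δ → _ := fun δ hδ => comb (A := A) hε hε1 hud hδ
  -- real numbers
  obtain ⟨M, hM'⟩ : ∃ M, M = (mass (disk 1) u).toReal := ⟨_, rfl⟩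
  obtain ⟨Q, hQ'⟩ : ∃ Q, Q = (energy A (disk 1) u).toReal := ⟨_, rfl⟩
  obtain ⟨m, hm'⟩ : ∃ m, m = (mass (rect (1 / 4) (ε / 2)) u).toReal := ⟨_, rfl⟩
  have eM : mass (disk 1) u = ENNReal.ofReal M := by rw [hM', ENNReal.ofReal_toReal hM.ne]
  have eQ : energy A (disk 1) u = ENNReal.ofReal Q := by rw [hQ', ENNReal.ofReal_toReal hQ]
  have em : mass (rect (1 / 4) (ε / 2)) u = ENNReal.ofReal m := by
    rw [hm', ENNReal.ofReal_toReal hm]
  have M0 : 0 ≤ M := by rw [hM']; exact ENNReal.toReal_nonneg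
  have Q0 : 0 ≤ Q := by rw [hQ']; exact ENNReal.toReal_nonneg
  have m0 : 0 ≤ m := by rw [hm']; exact ENNReal.toReal_nonneg
  have hn2 : (2 : ℝ≥0∞) = ENNReal.ofReal 2 := by simp
  have hn16 : (16 : ℝ≥0∞) = ENNReal.ofReal 16 := by simp
  have hn1092 : (1092 : ℝ≥0∞) = ENNReal.ofReal 1092 := by simp
  rw [eM, eQ, em, hn2, ← ENNReal.ofReal_mul hb0.le, ← ENNReal.ofReal_mul (by norm_num),
    ← ENNReal.ofReal_mul (by positivity), ← ENNReal.ofReal_add (by positivity) (by positivity),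
    ENNReal.ofReal_le_ofReal_iff (by positivity)] at h1
  have h3 : ∀ δ : ℝ, 0 < δ → ε / 2 * M ≤ 16 * (m + δ ^ 2) + 272 * ε * Q := by
    intro δ hδ
    have := h2 δ hδ
    rw [eM, eQ, em, hn16, ← ENNReal.ofReal_add m0 (by positivity),
      ← ENNReal.ofReal_mul (by positivity), ← ENNReal.ofReal_mul (by positivity),
      ← ENNReal.ofReal_mul (by positivity), ← ENNReal.ofReal_add (by positivity) (by positivity),
      ENNReal.ofReal_le_ofReal_iff (by positivity)] at this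
    exact this
  have h4 : ε / 2 * M ≤ 16 * m + 272 * ε * Q := by
    apply le_of_forall_pos_le_add
    intro e he
    have := h3 (Real.sqrt (e / 16)) (Real.sqrt_pos.2 (by positivity))
    rw [Real.sq_sqrt (by positivity)] at this
    linarith
  rw [eM, eQ, hn1092, ← ENNReal.ofReal_mul (by norm_num)]
  apply ENNReal.ofReal_le_ofReal
  -- arithmetic
  have h5 : b * (ε / 2 * M) ≤ b * (16 * m + 272 * ε * Q) := mul_le_mul_of_nonneg_left h4 hb0.le
  have h6 : 32 * (K * M) ≤ ε * b / 4 * M := by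
    have := mul_le_mul_of_nonneg_right hb2 M0
    linarith
  have h7 : 32 * Q ≤ ε * b * Q := mul_le_mul_of_nonneg_right hb1 Q0
  have h8 : ε * b / 4 * M ≤ 273 * (ε * b * Q) := by
    have e1 : b * (ε / 2 * M) = ε * b / 4 * M + ε * b / 4 * M := by ring
    have e2 : b * (16 * m + 272 * ε * Q) = 16 * (b * m) + 272 * (ε * b * Q) := by ring
    rw [e1, e2] at h5
    linarith
  have h9 : (ε * b) * M ≤ (ε * b) * (1092 * Q) := by linarith
  exact le_of_mul_le_mul_left h9 (by positivity)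

end Pool.Agent.X151.MG
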