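import Pool.Agent.X151.MG.Base

/-!
The lower bound for the magnetic energy of functions supported where the field is large.
-/

namespace Pool.Agent.X151.MG

open MeasureTheory Set
open scoped ENNReal

/-- The density of the magnetic energy. -/
noncomputable def eden (A : P → ℝ × ℝ) (u : P → ℂ) (p : P) : ℝ :=
  ‖-Complex.I * d1 u p - (A p).1 * u p‖ ^ 2 + ‖-Complex.I * d2 u p - (A p).2 * u p‖ ^ 2

theorem normsq (x y : ℝ) : ‖((x : ℂ) + y * Complex.I)‖ ^ 2 = x ^ 2 + y ^ 2 := by
  rw [← Complex.normSq_eq_norm_sq, Complex.normSq_add_mul_I]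

theorem d1_re_im {w : P → ℂ} {z : P} (hw : DifferentiableAt ℝ w z) :
    d1 w z = ((d1 (fun z => (w z).re) z : ℝ) : ℂ) + ((d1 (fun z => (w z).im) z : ℝ) : ℂ) * Complex.I := by
  have h1 : fderiv ℝ (fun z => (w z).re) z = Complex.reCLM.comp (fderiv ℝ w z) :=
    (Complex.reCLM.hasFDerivAt.comp z hw.hasFDerivAt).fderiv
  have h2 : fderiv ℝ (fun z => (w z).im) z = Complex.imCLM.comp (fderiv ℝ w z) :=
    (Complex.imCLM.hasFDerivAt.comp z hw.hasFDerivAt).fderiv
  unfold d1
  rw [h1, h2]
  simp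

theorem d2_re_im {w : P → ℂ} {z : P} (hw : DifferentiableAt ℝ w z) :
    d2 w z = ((d2 (fun z => (w z).re) z : ℝ) : ℂ) + ((d2 (fun z => (w z).im) z : ℝ) : ℂ) * Complex.I := by
  have h1 : fderiv ℝ (fun z => (w z).re) z = Complex.reCLM.comp (fderiv ℝ w z) :=
    (Complex.reCLM.hasFDerivAt.comp z hw.hasFDerivAt).fderiv
  have h2 : fderiv ℝ (fun z => (w z).im) z = Complex.imCLM.comp (fderiv ℝ w z) :=
    (Complex.imCLM.hasFDerivAt.comp z hw.hasFDerivAt).fderiv
  unfold d2
  rw [h1, h2]
  simp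

/-- The energy density in real terms. -/
theorem eden_real (A : P → ℝ × ℝ) {w : P → ℂ} {z : P} (hw : DifferentiableAt ℝ w z) :
    eden A w z = (d1 (fun z => (w z).im) z - (A z).1 * (w z).re) ^ 2 +
      (d1 (fun z => (w z).re) z + (A z).1 * (w z).im) ^ 2 +
      ((d2 (fun z => (w z).im) z - (A z).2 * (w z).re) ^ 2 +
      (d2 (fun z => (w z).re) z + (A z).2 * (w z).im) ^ 2) := by
  unfold eden
  rw [d1_re_im hw, d2_re_im hw]
  set a := d1 (fun z => (w z).re) z
  set b := d1 (fun z => (w z).im) z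
  set c := d2 (fun z => (w z).re) z
  set d := d2 (fun z => (w z).im) z
  have e : w z = ((w z).re : ℂ) + (w z).im * Complex.I := (Complex.re_add_im _).symm
  set p := (w z).re
  set q := (w z).im
  have h1 : -Complex.I * ((a : ℂ) + b * Complex.I) - (A z).1 * w z =
      ((b - (A z).1 * p : ℝ) : ℂ) + ((-(a + (A z).1 * q) : ℝ) : ℂ) * Complex.I := by
    rw [e]
    push_cast
    linear_combination (-(b : ℂ)) * Complex.I_sq
  have h2 : -Complex.I * ((c : ℂ) + d * Complex.I) - (A z).2 * w z =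
      ((d - (A z).2 * p : ℝ) : ℂ) + ((-(c + (A z).2 * q) : ℝ) : ℂ) * Complex.I := by
    rw [e]
    push_cast
    linear_combination (-(d : ℂ)) * Complex.I_sq
  rw [h1, h2, normsq, normsq]
  ring

/-- Continuity of products with the potential. -/
theorem cont_mul {Ω : Set P} (hΩ : IsOpen Ω) {a g : P → ℝ} (ha : ContinuousOn a Ω)
    (hg : Continuous g) (hs : tsupport g ⊆ Ω) : Continuous fun z => a z * g z := by
  apply continuous_of_tsupport
  intro z hz
  have hz' : z ∈ tsupport g := closure_mono (Function.support_mul_subset_right a g) hz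
  exact (ha.continuousAt (hΩ.mem_nhds (hs hz'))).mul hg.continuousAt

theorem magnetic {b : ℝ} (hb : 0 ≤ b) {Ω ω : Set P} (hΩ : IsOpen Ω) (hωΩ : ω ⊆ Ω)
    {A : P → ℝ × ℝ} (hA : IsPotential b Ω ω A) {w : P → ℂ} (hw : ContDiff ℝ 1 w)
    (hwc : HasCompactSupport w) (hws : tsupport w ⊆ ω) :
    ENNReal.ofReal b * ∫⁻ z, ENNReal.ofReal (‖w z‖ ^ 2) ≤ ∫⁻ z, ENNReal.ofReal (eden A w z) := by
  obtain ⟨hAc, -, hcurl⟩ := hA
  have hA1 : ContinuousOn (fun z => (A z).1) Ω := continuous_fst.comp_continuousOn hAc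
  have hA2 : ContinuousOn (fun z => (A z).2) Ω := continuous_snd.comp_continuousOn hAc
  set p : P → ℝ := fun z => (w z).re with hp
  set q : P → ℝ := fun z => (w z).im with hq
  have hpd : ContDiff ℝ 1 p := Complex.reCLM.contDiff.comp hw
  have hqd : ContDiff ℝ 1 q := Complex.imCLM.contDiff.comp hw
  have hpc : HasCompactSupport p := hwc.comp_left (g := Complex.re) Complex.zero_re
  have hqc : HasCompactSupport q := hwc.comp_left (g := Complex.im) Complex.zero_im
  have hps : tsupport p ⊆ tsupport w := by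
    apply closure_mono
    intro z hz hz'
    apply hz
    show (w z).re = 0
    rw [hz']; rfl
  have hqs : tsupport q ⊆ tsupport w := by
    apply closure_mono
    intro z hz hz'
    apply hz
    show (w z).im = 0
    rw [hz']; rfl
  have hpΩ : tsupport p ⊆ Ω := hps.trans (hws.trans hωΩ)
  have hqΩ : tsupport q ⊆ Ω := hqs.trans (hws.trans hωΩ)
  -- the function `|w|²`
  set ψ : P → ℝ := fun z => p z ^ 2 + q z ^ 2 with hψ
  have hψd : ContDiff ℝ 1 ψ := (hpd.pow 2).add (hqd.pow 2)
  have hψs : tsupport ψ ⊆ tsupport w := by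
    apply closure_mono
    intro z hz hz'
    apply hz
    show (w z).re ^ 2 + (w z).im ^ 2 = 0
    rw [hz']; simp
  have hψc : HasCompactSupport ψ := HasCompactSupport.of_support_subset_isCompact hwc
    (subset_closure.trans hψs)
  have hψn : ∀ z, ψ z = ‖w z‖ ^ 2 := by
    intro z
    rw [← Complex.normSq_eq_norm_sq, Complex.normSq_apply]
    show (w z).re ^ 2 + (w z).im ^ 2 = _
    ring
  have hψ1 : ∀ z, d1 ψ z = 2 * p z * d1 p z + 2 * q z * d1 q z := by
    intro z
    have h1 := (hpd.differentiable one_ne_zero z).hasFDerivAt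
    have h2 := (hqd.differentiable one_ne_zero z).hasFDerivAt
    have h3 := (h1.pow 2).add (h2.pow 2)
    have h4 : fderiv ℝ ψ z = _ := h3.fderiv
    unfold d1
    rw [h4]
    simp
  have hψ2 : ∀ z, d2 ψ z = 2 * p z * d2 p z + 2 * q z * d2 q z := by
    intro z
    have h1 := (hpd.differentiable one_ne_zero z).hasFDerivAt
    have h2 := (hqd.differentiable one_ne_zero z).hasFDerivAt
    have h3 := (h1.pow 2).add (h2.pow 2)
    have h4 : fderiv ℝ ψ z = _ := h3.fderiv
    unfold d2
    rw [h4]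
    simp
  -- the energy density
  set F : P → ℝ := fun z => (d1 q z - (A z).1 * p z) ^ 2 + (d1 p z + (A z).1 * q z) ^ 2 +
      ((d2 q z - (A z).2 * p z) ^ 2 + (d2 p z + (A z).2 * q z) ^ 2) with hF
  have hFe : ∀ z, eden A w z = F z := fun z =>
    eden_real A (hw.differentiable one_ne_zero z)
  have c1 := cont_mul hΩ hA1 hpd.continuous hpΩ
  have c2 := cont_mul hΩ hA1 hqd.continuous hqΩ
  have c3 := cont_mul hΩ hA2 hpd.continuous hpΩ
  have c4 := cont_mul hΩ hA2 hqd.continuous hqΩ
  have hFc : Continuous F :=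
    ((((cont_d1 hqd).sub c1).pow 2).add (((cont_d1 hpd).add c2).pow 2)).add
      ((((cont_d2 hqd).sub c3).pow 2).add (((cont_d2 hpd).add c4).pow 2))
  have hsup1 : ∀ z, z ∉ tsupport w → d1 p z = 0 ∧ d1 q z = 0 ∧ d2 p z = 0 ∧ d2 q z = 0 ∧
      p z = 0 ∧ q z = 0 := by
    intro z hz
    have h1 : fderiv ℝ p z = 0 := by
      by_contra h
      exact hz (hps (support_fderiv_subset ℝ h))
    have h2 : fderiv ℝ q z = 0 := by
      by_contra h
      exact hz (hqs (support_fderiv_subset ℝ h))
    have h3 : w z = 0 := image_eq_zero_of_notMem_tsupport hz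
    unfold d1 d2
    rw [h1, h2]
    refine ⟨rfl, rfl, rfl, rfl, ?_, ?_⟩
    · show (w z).re = 0
      rw [h3]; rfl
    · show (w z).im = 0
      rw [h3]; rfl
  have hFs : HasCompactSupport F := by
    apply HasCompactSupport.of_support_subset_isCompact hwc
    intro z hz
    by_contra hz'
    obtain ⟨a1, a2, a3, a4, a5, a6⟩ := hsup1 z hz'
    apply hz
    simp only [hF, a1, a2, a3, a4, a5, a6]
    ring
  have hFi : Integrable F := hFc.integrable_of_hasCompactSupport hFs
  -- integrals of the pieces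
  have i1 : Integrable fun z => d1 q z * d2 p z :=
    ((cont_d1 hqd).mul (cont_d2 hpd)).integrable_of_hasCompactSupport (supp_d1 hqc).mul_right
  have i2 : Integrable fun z => d1 p z * d2 q z :=
    ((cont_d1 hpd).mul (cont_d2 hqd)).integrable_of_hasCompactSupport (supp_d1 hpc).mul_right
  have hs1 : tsupport (d1 ψ) ⊆ Ω := by
    refine Subset.trans ?_ (hψs.trans (hws.trans hωΩ))
    apply closure_minimal _ isClosed_closure
    intro z hz
    by_contra h
    apply hz
    have : fderiv ℝ ψ z = 0 := by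
      by_contra h'
      exact h (support_fderiv_subset ℝ h')
    unfold d1
    rw [this]; rfl
  have hs2 : tsupport (d2 ψ) ⊆ Ω := by
    refine Subset.trans ?_ (hψs.trans (hws.trans hωΩ))
    apply closure_minimal _ isClosed_closure
    intro z hz
    by_contra h
    apply hz
    have : fderiv ℝ ψ z = 0 := by
      by_contra h'
      exact h (support_fderiv_subset ℝ h')
    unfold d2
    rw [this]; rfl
  have i3 : Integrable fun z => (A z).1 * d2 ψ z - (A z).2 * d1 ψ z :=
    ((cont_mul hΩ hA1 (cont_d2 hψd) hs2).integrable_of_hasCompactSupport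
      (supp_d2 hψc).mul_left).sub
    ((cont_mul hΩ hA2 (cont_d1 hψd) hs1).integrable_of_hasCompactSupport
      (supp_d1 hψc).mul_left)
  have hjac := jac hqd hqc hpd hpc
  have hcu := hcurl ψ hψd hψc (hψs.trans (hws.trans hωΩ))
  have hint : ∫ z, (-2 * (d1 q z * d2 p z - d1 p z * d2 q z) +
      ((A z).1 * d2 ψ z - (A z).2 * d1 ψ z)) = b * ∫ z, ψ z := by
    have e1 : ∫ z, (-2 * (d1 q z * d2 p z - d1 p z * d2 q z) +
      ((A z).1 * d2 ψ z - (A z).2 * d1 ψ z)) =
      (∫ z, -2 * (d1 q z * d2 p z - d1 p z * d2 q z)) +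
        ∫ z, ((A z).1 * d2 ψ z - (A z).2 * d1 ψ z) :=
      integral_add ((i1.sub i2).const_mul _) i3
    have e2 : ∫ z, (d1 q z * d2 p z - d1 p z * d2 q z) = 0 := by
      have e3 : ∫ z, (d1 q z * d2 p z - d1 p z * d2 q z) =
        (∫ z, d1 q z * d2 p z) - ∫ z, d1 p z * d2 q z := integral_sub i1 i2
      rw [e3, hjac, sub_eq_zero]
      congr 1
      funext z
      ring
    have e4 : ∫ z in ω, ψ z = ∫ z, ψ z := by
      apply setIntegral_eq_integral_of_forall_compl_eq_zero
      intro z hz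
      by_contra h
      exact hz (hws (hψs (subset_closure h)))
    rw [e1, integral_const_mul, e2, hcu, e4]
    ring
  have hle : b * ∫ z, ψ z ≤ ∫ z, F z := by
    rw [← hint]
    apply integral_mono (((i1.sub i2).const_mul _).add i3) hFi
    intro z
    show -2 * (d1 q z * d2 p z - d1 p z * d2 q z) +
      ((A z).1 * d2 ψ z - (A z).2 * d1 ψ z) ≤ F z
    rw [hψ1, hψ2]
    simp only [hF]
    nlinarith [sq_nonneg ((d1 q z - (A z).1 * p z) + (d2 p z + (A z).2 * q z)),
      sq_nonneg (-(d1 p z + (A z).1 * q z) + (d2 q z - (A z).2 * p z))]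
  have hψi : Integrable ψ := hψd.continuous.integrable_of_hasCompactSupport hψc
  calc ENNReal.ofReal b * ∫⁻ z, ENNReal.ofReal (‖w z‖ ^ 2) =
      ENNReal.ofReal b * ENNReal.ofReal (∫ z, ψ z) := by
        rw [ofReal_integral_eq_lintegral_ofReal hψi (Filter.Eventually.of_forall fun z => by
          rw [hψn]; positivity)]
        simp_rw [hψn]
    _ = ENNReal.ofReal (b * ∫ z, ψ z) := by rw [ENNReal.ofReal_mul hb]
    _ ≤ ENNReal.ofReal (∫ z, F z) := ENNReal.ofReal_le_ofReal hle
    _ = ∫⁻ z, ENNReal.ofReal (eden A w z) := by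
        rw [ofReal_integral_eq_lintegral_ofReal hFi (Filter.Eventually.of_forall fun z => by
          show 0 ≤ F z
          simp only [hF]; positivity)]
        simp_rw [hFe]

end Pool.Agent.X151.MG
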