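import Mathlib

/-!
A Poincaré inequality on bounded convex open sets, for functions that are `C¹` in the open set
and have finite energy.
-/

namespace Pool.Agent.X151.MG

open MeasureTheory Set
open scoped ENNReal

/-- The plane. -/
abbrev P := ℝ × ℝ

/-- Change of variables under a homothety. -/
theorem lint_homothety {H : P → ℝ≥0∞} (hH : Measurable H) {a : ℝ} (ha : a ≠ 0) (b : P) :
    ∫⁻ y, H (a • y + b) = ENNReal.ofReal |(a ^ 2)⁻¹| * ∫⁻ z, H z := by
  have h1 : ∫⁻ y, H (a • y + b) = ∫⁻ z, H (z + b) ∂(Measure.map (fun y : P => a • y) volume) := by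
    rw [lintegral_map (f := fun z => H (z + b)) (hH.comp (measurable_id.add_const b))
      (measurable_const_smul a)]
  rw [h1, Measure.map_addHaar_smul volume ha, lintegral_smul_measure]
  rw [lintegral_add_right_eq_self (μ := volume) H b]
  have : Module.finrank ℝ P = 2 := by simp
  rw [this, smul_eq_mul]

/-- The bound on a segment. -/
theorem seg {Ω : Set (P)} (hΩo : IsOpen Ω) (hΩc : Convex ℝ Ω) {u : P → ℝ}
    (hu : ContDiffOn ℝ 1 u Ω) {x y : P} (hx : x ∈ Ω) (hy : y ∈ Ω) :
    ENNReal.ofReal ((u x - u y) ^ 2) ≤ ENNReal.ofReal (‖x - y‖ ^ 2) *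
      ∫⁻ t in Ioc (0 : ℝ) 1, ENNReal.ofReal (‖fderiv ℝ u (y + t • (x - y))‖ ^ 2) := by
  have hmem : ∀ t ∈ Icc (0 : ℝ) 1, y + t • (x - y) ∈ Ω := by
    intro t ht
    have : y + t • (x - y) = (1 - t) • y + t • x := by
      rw [smul_sub, sub_smul, one_smul]; abel
    rw [this]
    exact hΩc hy hx (by linarith [ht.2]) ht.1 (by ring)
  have hγ : Continuous fun t : ℝ => y + t • (x - y) := by fun_prop
  have hfd : ContinuousOn (fun z => fderiv ℝ u z) Ω := hu.continuousOn_fderiv_of_isOpen hΩo le_rfl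
  have hc : ContinuousOn (fun t : ℝ => fderiv ℝ u (y + t • (x - y))) (Icc 0 1) :=
    hfd.comp hγ.continuousOn hmem
  have hc1 : ContinuousOn (fun t : ℝ => fderiv ℝ u (y + t • (x - y)) (x - y)) (Icc 0 1) :=
    hc.clm_apply continuousOn_const
  have hder : ∀ t ∈ Icc (0 : ℝ) 1, HasDerivAt (fun t : ℝ => u (y + t • (x - y)))
      (fderiv ℝ u (y + t • (x - y)) (x - y)) t := by
    intro t ht
    have h1 : HasFDerivAt u (fderiv ℝ u (y + t • (x - y))) (y + t • (x - y)) :=
      ((hu.differentiableOn one_ne_zero).differentiableAt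
        (hΩo.mem_nhds (hmem t ht))).hasFDerivAt
    have h2 : HasDerivAt (fun t : ℝ => y + t • (x - y)) (x - y) t := by
      simpa using ((hasDerivAt_id t).smul_const (x - y)).const_add y
    exact h1.comp_hasDerivAt t h2
  have hint : IntervalIntegrable (fun t : ℝ => fderiv ℝ u (y + t • (x - y)) (x - y)) volume 0 1 :=
    ContinuousOn.intervalIntegrable (by rwa [uIcc_of_le zero_le_one])
  have hftc : ∫ t in (0 : ℝ)..1, fderiv ℝ u (y + t • (x - y)) (x - y) = u x - u y := by
    rw [intervalIntegral.integral_eq_sub_of_hasDerivAt (fun t ht => hder t (by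
      rwa [uIcc_of_le zero_le_one] at ht)) hint]
    simp
  -- the square of the integral
  set m := u x - u y with hm
  set G : ℝ → ℝ := fun t => ‖fderiv ℝ u (y + t • (x - y))‖ with hG
  have hGc : ContinuousOn G (Icc 0 1) := hc.norm
  have hGi : IntervalIntegrable (fun t => (‖x - y‖ ^ 2 * G t ^ 2)) volume 0 1 :=
    ContinuousOn.intervalIntegrable (by
      rw [uIcc_of_le zero_le_one]; exact continuousOn_const.mul (hGc.pow 2))
  have hsq : m ^ 2 ≤ ∫ t in (0 : ℝ)..1, ‖x - y‖ ^ 2 * G t ^ 2 := by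
    have h1 : ∫ t in (0 : ℝ)..1, (2 * m * fderiv ℝ u (y + t • (x - y)) (x - y)) ≤
        ∫ t in (0 : ℝ)..1, (m ^ 2 + ‖x - y‖ ^ 2 * G t ^ 2) := by
      apply intervalIntegral.integral_mono_on zero_le_one (hint.const_mul _)
        (intervalIntegrable_const.add hGi)
      intro t ht
      have h2 : |fderiv ℝ u (y + t • (x - y)) (x - y)| ≤ G t * ‖x - y‖ := by
        have := (fderiv ℝ u (y + t • (x - y))).le_opNorm (x - y)
        rwa [Real.norm_eq_abs] at this
      have h3 : (fderiv ℝ u (y + t • (x - y)) (x - y)) ^ 2 ≤ (G t * ‖x - y‖) ^ 2 := by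
        rw [← sq_abs]; exact pow_le_pow_left₀ (abs_nonneg _) h2 2
      nlinarith [sq_nonneg (m - fderiv ℝ u (y + t • (x - y)) (x - y))]
    rw [intervalIntegral.integral_const_mul, hftc,
      intervalIntegral.integral_add intervalIntegrable_const hGi,
      intervalIntegral.integral_const] at h1
    simp only [sub_zero, one_smul] at h1
    nlinarith
  calc ENNReal.ofReal (m ^ 2) ≤ ENNReal.ofReal (∫ t in (0 : ℝ)..1, ‖x - y‖ ^ 2 * G t ^ 2) :=
        ENNReal.ofReal_le_ofReal hsq
    _ = ∫⁻ t in Ioc (0 : ℝ) 1, ENNReal.ofReal (‖x - y‖ ^ 2 * G t ^ 2) := by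
        rw [intervalIntegral.integral_of_le zero_le_one,
          ofReal_integral_eq_lintegral_ofReal]
        · rwa [intervalIntegrable_iff_integrableOn_Ioc_of_le zero_le_one] at hGi
        · exact Filter.Eventually.of_forall fun t => by positivity
    _ = _ := by
        rw [← lintegral_const_mul'']
        · simp_rw [ENNReal.ofReal_mul (sq_nonneg ‖x - y‖)]
          rfl
        · have : AEMeasurable (fun t => G t ^ 2) (volume.restrict (Ioc (0 : ℝ) 1)) :=
            ((hGc.pow 2).mono Ioc_subset_Icc_self).aemeasurable measurableSet_Ioc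
          exact this.ennreal_ofReal

/-- The density of the energy, extended by zero. -/
noncomputable def dens (Ω : Set (P)) (u : P → ℝ) : P → ℝ≥0∞ :=
  Ω.indicator fun x => ENNReal.ofReal (‖fderiv ℝ u x‖ ^ 2)

theorem dens_meas {Ω : Set (P)} (hΩo : IsOpen Ω) {u : P → ℝ} : Measurable (dens Ω u) := by
  apply Measurable.indicator _ hΩo.measurableSet
  exact ((measurable_fderiv ℝ u).norm.pow_const 2).ennreal_ofReal

theorem double {Ω : Set (P)} (hΩo : IsOpen Ω) (hΩc : Convex ℝ Ω) {D : ℝ}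
    (hD : ∀ x ∈ Ω, ∀ y ∈ Ω, ‖x - y‖ ≤ D) {u : P → ℝ} (hu : ContDiffOn ℝ 1 u Ω) :
    ∫⁻ x in Ω, ∫⁻ y in Ω, ENNReal.ofReal ((u x - u y) ^ 2) ≤
      ENNReal.ofReal (D ^ 2) * (ENNReal.ofReal (2 ^ 2) * volume Ω * ∫⁻ x, dens Ω u x) := by
  have hH := dens_meas (u := u) hΩo
  have hmeas : Measurable fun p : P × P × ℝ => dens Ω u (p.2.1 + p.2.2 • (p.1 - p.2.1)) :=
    hH.comp (by fun_prop)
  -- pointwise bound
  have h1 : ∀ x ∈ Ω, ∀ y ∈ Ω, ENNReal.ofReal ((u x - u y) ^ 2) ≤ ENNReal.ofReal (D ^ 2) *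
      ∫⁻ t in Ioc (0 : ℝ) 1, dens Ω u (y + t • (x - y)) := by
    intro x hx y hy
    refine (seg hΩo hΩc hu hx hy).trans ?_
    apply mul_le_mul'
    · apply ENNReal.ofReal_le_ofReal
      exact pow_le_pow_left₀ (norm_nonneg _) (hD x hx y hy) 2
    · apply setLIntegral_mono' measurableSet_Ioc
      intro t ht
      have : y + t • (x - y) ∈ Ω := by
        have e : y + t • (x - y) = (1 - t) • y + t • x := by
          rw [smul_sub, sub_smul, one_smul]; abel
        rw [e]
        exact hΩc hy hx (by linarith [ht.2]) ht.1.le (by ring)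
      unfold dens
      rw [indicator_of_mem this]
  have h2 : ∫⁻ x in Ω, ∫⁻ y in Ω, ENNReal.ofReal ((u x - u y) ^ 2) ≤
      ∫⁻ x in Ω, ∫⁻ y in Ω, ENNReal.ofReal (D ^ 2) *
        ∫⁻ t in Ioc (0 : ℝ) 1, dens Ω u (y + t • (x - y)) := by
    apply setLIntegral_mono' hΩo.measurableSet
    intro x hx
    apply setLIntegral_mono' hΩo.measurableSet
    intro y hy
    exact h1 x hx y hy
  refine h2.trans ?_
  have hm1 : ∀ x, Measurable fun y : P => ∫⁻ t in Ioc (0 : ℝ) 1, dens Ω u (y + t • (x - y)) := by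
    intro x
    apply Measurable.lintegral_prod_right'
      (f := fun p : P × ℝ => dens Ω u (p.1 + p.2 • (x - p.1)))
    exact hH.comp (by fun_prop)
  have hm2 : Measurable fun x : P => ∫⁻ y in Ω, ∫⁻ t in Ioc (0 : ℝ) 1,
      dens Ω u (y + t • (x - y)) := by
    apply Measurable.lintegral_prod_right'
      (f := fun p : P × P => ∫⁻ t in Ioc (0 : ℝ) 1, dens Ω u (p.2 + t • (p.1 - p.2)))
    apply Measurable.lintegral_prod_right'
      (f := fun p : (P × P) × ℝ => dens Ω u (p.1.2 + p.2 • (p.1.1 - p.1.2)))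
    exact hH.comp (by fun_prop)
  have e1 : ∫⁻ x in Ω, ∫⁻ y in Ω, ENNReal.ofReal (D ^ 2) *
        ∫⁻ t in Ioc (0 : ℝ) 1, dens Ω u (y + t • (x - y)) =
      ENNReal.ofReal (D ^ 2) * ∫⁻ x in Ω, ∫⁻ y in Ω,
        ∫⁻ t in Ioc (0 : ℝ) 1, dens Ω u (y + t • (x - y)) := by
    rw [← lintegral_const_mul _ hm2]
    congr 1
    funext x
    rw [lintegral_const_mul _ (hm1 x)]
  rw [e1]
  apply mul_le_mul' le_rfl
  -- swap the order of integration
  have e2 : ∫⁻ x in Ω, ∫⁻ y in Ω, ∫⁻ t in Ioc (0 : ℝ) 1, dens Ω u (y + t • (x - y)) =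
      ∫⁻ t in Ioc (0 : ℝ) 1, ∫⁻ x in Ω, ∫⁻ y in Ω, dens Ω u (y + t • (x - y)) := by
    have : ∀ x, ∫⁻ y in Ω, ∫⁻ t in Ioc (0 : ℝ) 1, dens Ω u (y + t • (x - y)) =
        ∫⁻ t in Ioc (0 : ℝ) 1, ∫⁻ y in Ω, dens Ω u (y + t • (x - y)) := by
      intro x
      apply lintegral_lintegral_swap
      exact (hH.comp (by fun_prop : Measurable fun p : P × ℝ =>
        p.1 + p.2 • (x - p.1))).aemeasurable
    simp_rw [this]
    apply lintegral_lintegral_swap
    apply Measurable.aemeasurable
    apply Measurable.lintegral_prod_right'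
      (f := fun p : (P × ℝ) × P => dens Ω u (p.2 + p.1.2 • (p.1.1 - p.2)))
    exact hH.comp (by fun_prop)
  rw [e2]
  have hkey : ∀ t ∈ Ioc (0 : ℝ) 1, ∫⁻ x in Ω, ∫⁻ y in Ω, dens Ω u (y + t • (x - y)) ≤
      ENNReal.ofReal (2 ^ 2) * volume Ω * ∫⁻ x, dens Ω u x := by
    intro t ht
    rcases le_total t (1 / 2) with hle | hle
    · have ha : (1 - t) ≠ 0 := by
        have : 0 < 1 - t := by linarith
        exact this.ne'
      have hb : ∀ x, ∫⁻ y in Ω, dens Ω u (y + t • (x - y)) ≤
          ENNReal.ofReal (2 ^ 2) * ∫⁻ x, dens Ω u x := by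
        intro x
        calc ∫⁻ y in Ω, dens Ω u (y + t • (x - y)) ≤ ∫⁻ y, dens Ω u (y + t • (x - y)) :=
              setLIntegral_le_lintegral _ _
          _ = ∫⁻ y, dens Ω u ((1 - t) • y + t • x) := by
              congr 1
              funext y
              congr 1
              rw [smul_sub, sub_smul, one_smul]; abel
          _ = ENNReal.ofReal |((1 - t) ^ 2)⁻¹| * ∫⁻ x, dens Ω u x := lint_homothety hH ha _
          _ ≤ _ := by
              apply mul_le_mul' _ le_rfl
              apply ENNReal.ofReal_le_ofReal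
              have ht2 : 0 < 1 - t := by linarith
              rw [abs_of_nonneg (by positivity), ← inv_pow]
              apply pow_le_pow_left₀ (by positivity)
              rw [inv_le_comm₀ ht2 (by norm_num)]
              linarith
      calc ∫⁻ x in Ω, ∫⁻ y in Ω, dens Ω u (y + t • (x - y)) ≤
          ∫⁻ x in Ω, ENNReal.ofReal (2 ^ 2) * ∫⁻ x, dens Ω u x := lintegral_mono hb
        _ = _ := by
          rw [lintegral_const, Measure.restrict_apply_univ]
          ring
    · have ha : t ≠ 0 := ht.1.ne'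
      rw [lintegral_lintegral_swap]
      · have hb : ∀ y, ∫⁻ x in Ω, dens Ω u (y + t • (x - y)) ≤
            ENNReal.ofReal (2 ^ 2) * ∫⁻ x, dens Ω u x := by
          intro y
          calc ∫⁻ x in Ω, dens Ω u (y + t • (x - y)) ≤ ∫⁻ x, dens Ω u (y + t • (x - y)) :=
                setLIntegral_le_lintegral _ _
            _ = ∫⁻ x, dens Ω u (t • x + (1 - t) • y) := by
                congr 1
                funext x
                congr 1
                rw [smul_sub, sub_smul, one_smul]; abel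
            _ = ENNReal.ofReal |(t ^ 2)⁻¹| * ∫⁻ x, dens Ω u x := lint_homothety hH ha _
            _ ≤ _ := by
                apply mul_le_mul' _ le_rfl
                apply ENNReal.ofReal_le_ofReal
                have ht0 := ht.1
                rw [abs_of_nonneg (by positivity), ← inv_pow]
                apply pow_le_pow_left₀ (by positivity)
                rw [inv_le_comm₀ ht0 (by norm_num)]
                linarith
        calc ∫⁻ y in Ω, ∫⁻ x in Ω, dens Ω u (y + t • (x - y)) ≤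
            ∫⁻ y in Ω, ENNReal.ofReal (2 ^ 2) * ∫⁻ x, dens Ω u x := lintegral_mono hb
          _ = _ := by
            rw [lintegral_const, Measure.restrict_apply_univ]
            ring
      · exact (hH.comp (by fun_prop : Measurable fun p : P × P =>
          p.2 + t • (p.1 - p.2))).aemeasurable
  calc ∫⁻ t in Ioc (0 : ℝ) 1, ∫⁻ x in Ω, ∫⁻ y in Ω, dens Ω u (y + t • (x - y)) ≤
      ∫⁻ t in Ioc (0 : ℝ) 1, ENNReal.ofReal (2 ^ 2) * volume Ω * ∫⁻ x, dens Ω u x :=
        setLIntegral_mono' measurableSet_Ioc hkey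
    _ = _ := by
      rw [lintegral_const, Measure.restrict_apply_univ, Real.volume_Ioc]
      simp

end Pool.Agent.X151.MG
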