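import Pool.Agent.X151.MG.Lower3

/-!
The radial vector potential of the field of a disk.
-/

namespace Pool.Agent.X151.MG

open MeasureTheory Set
open scoped ENNReal

/-- Integration by parts on the line, for a continuous function that is differentiable off a
countable set. -/
theorem ibp1 {a D g g' : ℝ → ℝ} (ha : Continuous a) {S : Set ℝ} (hS : S.Countable)
    (hd : ∀ y, y ∉ S → HasDerivAt a (D y) y) (hDm : Measurable D) {C : ℝ}
    (hDb : ∀ y, |D y| ≤ C) (hg : ∀ y, HasDerivAt g (g' y) y) (hg' : Continuous g') {R : ℝ}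
    (hgs : ∀ y, R ≤ |y| → g y = 0 ∧ g' y = 0) :
    ∫ y, a y * g' y = -∫ y, D y * g y := by
  have hgc : Continuous g := continuous_iff_continuousAt.2 fun y => (hg y).continuousAt
  have hsup1 : Function.support (fun y => a y * g' y) ⊆ Ioc (-R) R := by
    intro y hy
    have h1 : g' y ≠ 0 := right_ne_zero_of_mul hy
    have h2 : |y| < R := by
      by_contra h
      exact h1 (hgs y (not_lt.1 h)).2
    rw [abs_lt] at h2
    exact ⟨h2.1, h2.2.le⟩
  have hsup2 : Function.support (fun y => D y * g y) ⊆ Ioc (-R) R := by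
    intro y hy
    have h1 : g y ≠ 0 := right_ne_zero_of_mul hy
    have h2 : |y| < R := by
      by_contra h
      exact h1 (hgs y (not_lt.1 h)).1
    rw [abs_lt] at h2
    exact ⟨h2.1, h2.2.le⟩
  rw [← intervalIntegral.integral_eq_integral_of_support_subset hsup1,
    ← intervalIntegral.integral_eq_integral_of_support_subset hsup2]
  have i1 : IntervalIntegrable (fun y => a y * g' y) volume (-R) R :=
    (ha.mul hg').intervalIntegrable _ _
  have i2 : IntervalIntegrable (fun y => D y * g y) volume (-R) R := by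
    rw [intervalIntegrable_iff]
    have h1 : IntegrableOn g (Set.uIoc (-R) R) volume :=
      intervalIntegrable_iff.1 (hgc.intervalIntegrable _ _)
    exact h1.bdd_mul hDm.aestronglyMeasurable (Filter.Eventually.of_forall hDb)
  have h := integral_eq_of_hasDerivAt_off_countable (fun y => a y * g y)
    (fun y => D y * g y + a y * g' y) (a := -R) (b := R) hS (ha.mul hgc).continuousOn
    (fun y hy => (hd y hy.2).mul (hg y)) (i2.add i1)
  rw [intervalIntegral.integral_add i2 i1] at h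
  have h1 := (hgs R (le_abs_self R)).1
  have h2 := (hgs (-R) (by rw [abs_neg]; exact le_abs_self R)).1
  simp only [h1, h2, mul_zero, sub_zero] at h
  linarith

theorem supp_box {φ : P → ℝ} (hc : HasCompactSupport φ) :
    ∃ R : ℝ, 0 < R ∧ ∀ z : P, R ≤ |z.1| ∨ R ≤ |z.2| → z ∉ tsupport φ := by
  obtain ⟨R, hR⟩ := hc.isBounded.exists_norm_le
  refine ⟨|R| + 1, by positivity, fun z hz hzt => ?_⟩
  have h1 := hR z hzt
  have h2 : |z.1| ≤ ‖z‖ := norm_fst_le z
  have h3 : |z.2| ≤ ‖z‖ := norm_snd_le z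
  have h4 := le_abs_self R
  rcases hz with h | h <;> linarith

theorem off_supp {φ : P → ℝ} {z : P} (hz : z ∉ tsupport φ) :
    φ z = 0 ∧ d1 φ z = 0 ∧ d2 φ z = 0 := by
  have h1 : fderiv ℝ φ z = 0 := by
    by_contra h
    exact hz (support_fderiv_subset ℝ h)
  refine ⟨image_eq_zero_of_notMem_tsupport hz, ?_, ?_⟩
  · unfold d1; rw [h1]; rfl
  · unfold d2; rw [h1]; rfl

/-- Integration by parts in the second variable. -/
theorem ibpB {a D : P → ℝ} (ha : Continuous a) (hDm : Measurable D) {C : ℝ}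
    (hDb : ∀ z, |D z| ≤ C)
    (hd : ∀ x : ℝ, ∃ S : Set ℝ, S.Countable ∧ ∀ y, y ∉ S → HasDerivAt (fun y => a (x, y)) (D (x, y)) y)
    {φ : P → ℝ} (hφ : ContDiff ℝ 1 φ) (hc : HasCompactSupport φ) :
    ∫ z, a z * d2 φ z = -∫ z, D z * φ z := by
  have i1 : Integrable fun z => a z * d2 φ z :=
    (ha.mul (cont_d2 hφ)).integrable_of_hasCompactSupport (supp_d2 hc).mul_left
  have i2 : Integrable fun z => D z * φ z :=
    (hφ.continuous.integrable_of_hasCompactSupport hc).bdd_mul hDm.aestronglyMeasurable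
      (Filter.Eventually.of_forall hDb)
  obtain ⟨R, hR, hRs⟩ := supp_box hc
  rw [Measure.volume_eq_prod] at i1 i2 ⊢
  rw [integral_prod _ i1, integral_prod _ i2, ← integral_neg]
  congr 1
  funext x
  obtain ⟨S, hS, hdS⟩ := hd x
  apply ibp1 (ha.comp (by fun_prop : Continuous fun y : ℝ => ((x, y) : P))) hS hdS
    (hDm.comp (by fun_prop : Measurable fun y : ℝ => ((x, y) : P))) (C := C)
    (fun y => hDb (x, y)) (g := fun y => φ (x, y)) (g' := fun y => d2 φ (x, y)) (R := R)
  · intro y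
    have h1 : HasFDerivAt φ (fderiv ℝ φ (x, y)) (x, y) :=
      (hφ.differentiable one_ne_zero _).hasFDerivAt
    exact h1.comp_hasDerivAt y ((hasDerivAt_const y x).prodMk (hasDerivAt_id y))
  · exact (cont_d2 hφ).comp (by fun_prop)
  · intro y hy
    have := off_supp (hRs (x, y) (Or.inr hy))
    exact ⟨this.1, this.2.2⟩

/-- Integration by parts in the first variable. -/
theorem ibpA {a D : P → ℝ} (ha : Continuous a) (hDm : Measurable D) {C : ℝ}
    (hDb : ∀ z, |D z| ≤ C)
    (hd : ∀ y : ℝ, ∃ S : Set ℝ, S.Countable ∧ ∀ x, x ∉ S → HasDerivAt (fun x => a (x, y)) (D (x, y)) x)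
    {φ : P → ℝ} (hφ : ContDiff ℝ 1 φ) (hc : HasCompactSupport φ) :
    ∫ z, a z * d1 φ z = -∫ z, D z * φ z := by
  have i1 : Integrable fun z => a z * d1 φ z :=
    (ha.mul (cont_d1 hφ)).integrable_of_hasCompactSupport (supp_d1 hc).mul_left
  have i2 : Integrable fun z => D z * φ z :=
    (hφ.continuous.integrable_of_hasCompactSupport hc).bdd_mul hDm.aestronglyMeasurable
      (Filter.Eventually.of_forall hDb)
  obtain ⟨R, hR, hRs⟩ := supp_box hc
  rw [Measure.volume_eq_prod] at i1 i2 ⊢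
  rw [integral_prod_symm _ i1, integral_prod_symm _ i2, ← integral_neg]
  congr 1
  funext y
  obtain ⟨S, hS, hdS⟩ := hd y
  apply ibp1 (ha.comp (by fun_prop : Continuous fun x : ℝ => ((x, y) : P))) hS hdS
    (hDm.comp (by fun_prop : Measurable fun x : ℝ => ((x, y) : P))) (C := C)
    (fun x => hDb (x, y)) (g := fun x => φ (x, y)) (g' := fun x => d1 φ (x, y)) (R := R)
  · intro x
    have h1 : HasFDerivAt φ (fderiv ℝ φ (x, y)) (x, y) :=
      (hφ.differentiable one_ne_zero _).hasFDerivAt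
    exact h1.comp_hasDerivAt x ((hasDerivAt_id x).prodMk (hasDerivAt_const x y))
  · exact (cont_d1 hφ).comp (by fun_prop)
  · intro x hx
    have := off_supp (hRs (x, y) (Or.inl hx))
    exact ⟨this.1, this.2.1⟩

/-- The radial potential with flux `N` through the disk of radius `√s`. -/
noncomputable def radA (N s : ℝ) (z : P) : ℝ × ℝ :=
  (-(N * z.2 / max s (z.1 ^ 2 + z.2 ^ 2)), N * z.1 / max s (z.1 ^ 2 + z.2 ^ 2))

/-- The derivative of `y / max s (x² + y²)` in `y`. -/
noncomputable def dq (s x y : ℝ) : ℝ :=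
  if x ^ 2 + y ^ 2 < s then 1 / s else (x ^ 2 - y ^ 2) / (x ^ 2 + y ^ 2) ^ 2

theorem dq_meas (s : ℝ) : Measurable fun z : P => dq s z.1 z.2 := by
  unfold dq
  apply Measurable.ite
  · exact measurableSet_lt (by fun_prop) measurable_const
  · exact measurable_const
  · fun_prop

theorem dq_meas' (s : ℝ) : Measurable fun z : P => dq s z.2 z.1 := by
  unfold dq
  apply Measurable.ite
  · exact measurableSet_lt (by fun_prop) measurable_const
  · exact measurable_const
  · fun_prop

theorem dq_bound {s : ℝ} (hs : 0 < s) (x y : ℝ) : |dq s x y| ≤ 1 / s := by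
  unfold dq
  split_ifs with h
  · rw [abs_of_pos (by positivity)]
  · push Not at h
    have h0 : 0 < x ^ 2 + y ^ 2 := lt_of_lt_of_le hs h
    rw [abs_div, abs_of_pos (by positivity : 0 < (x ^ 2 + y ^ 2) ^ 2), div_le_div_iff₀
      (by positivity) hs, one_mul]
    have h1 : |x ^ 2 - y ^ 2| ≤ x ^ 2 + y ^ 2 := by
      rw [abs_le]
      constructor <;> nlinarith [sq_nonneg x, sq_nonneg y]
    calc |x ^ 2 - y ^ 2| * s ≤ (x ^ 2 + y ^ 2) * (x ^ 2 + y ^ 2) :=
          mul_le_mul h1 h hs.le h0.le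
      _ = _ := by ring

theorem dq_deriv {s : ℝ} (hs : 0 < s) (x y : ℝ) (h : x ^ 2 + y ^ 2 ≠ s) :
    HasDerivAt (fun y => y / max s (x ^ 2 + y ^ 2)) (dq s x y) y := by
  have hc : Continuous fun y : ℝ => x ^ 2 + y ^ 2 := by fun_prop
  unfold dq
  rcases lt_or_gt_of_ne h with h1 | h1
  · rw [if_pos h1]
    have h2 : (fun y => y / max s (x ^ 2 + y ^ 2)) =ᶠ[nhds y] fun y => y / s := by
      filter_upwards [hc.continuousAt.eventually_lt continuousAt_const h1] with t ht
      rw [max_eq_left ht.le]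
    exact ((hasDerivAt_id y).div_const s).congr_of_eventuallyEq h2
  · rw [if_neg (not_lt.2 h1.le)]
    have h0 : x ^ 2 + y ^ 2 ≠ 0 := (hs.trans h1).ne'
    have h2 : (fun y => y / max s (x ^ 2 + y ^ 2)) =ᶠ[nhds y] fun y => y / (x ^ 2 + y ^ 2) := by
      filter_upwards [continuousAt_const.eventually_lt hc.continuousAt h1] with t ht
      rw [max_eq_right ht.le]
    have h3 : HasDerivAt (fun y : ℝ => x ^ 2 + y ^ 2) (2 * y) y := by
      have := (hasDerivAt_pow 2 y).const_add (x ^ 2)
      simpa using this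
    have h4 := (hasDerivAt_id y).div h3 h0
    refine (h4.congr_of_eventuallyEq h2).congr_deriv ?_
    simp only [id]
    congr 1
    ring

theorem count {s : ℝ} (x : ℝ) : {y : ℝ | x ^ 2 + y ^ 2 = s}.Countable := by
  have : {y : ℝ | x ^ 2 + y ^ 2 = s} ⊆ {Real.sqrt (s - x ^ 2), -Real.sqrt (s - x ^ 2)} := by
    intro y hy
    have hy' : y ^ 2 = s - x ^ 2 := by
      have : x ^ 2 + y ^ 2 = s := hy
      linarith
    have h1 : Real.sqrt (s - x ^ 2) = |y| := by rw [← hy', Real.sqrt_sq_eq_abs]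
    rw [h1, mem_insert_iff, mem_singleton_iff]
    rcases abs_choice y with h | h
    · left; exact h.symm
    · right; rw [h, neg_neg]
  exact (Set.Finite.subset (Set.toFinite _) this).countable

/-- The radial potential is a potential of the field of the disk. -/
theorem radA_pot {s : ℝ} (hs : 0 < s) (N : ℝ) {R : ℝ} (hR : R ^ 2 = s) :
    IsPotential (2 * N / s) (disk 1) (disk R) (radA N s) := by
  have hm : ∀ z : P, max s (z.1 ^ 2 + z.2 ^ 2) ≠ 0 := fun z =>
    (lt_of_lt_of_le hs (le_max_left _ _)).ne'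
  have hq1 : Continuous fun z : P => z.2 / max s (z.1 ^ 2 + z.2 ^ 2) :=
    continuous_snd.div (by fun_prop) hm
  have hq2 : Continuous fun z : P => z.1 / max s (z.1 ^ 2 + z.2 ^ 2) :=
    continuous_fst.div (by fun_prop) hm
  refine ⟨?_, ⟨|N| / s, ?_⟩, ?_⟩
  · apply Continuous.continuousOn
    unfold radA
    have e1 : ∀ z : P, -(N * z.2 / max s (z.1 ^ 2 + z.2 ^ 2)) =
      -(N * (z.2 / max s (z.1 ^ 2 + z.2 ^ 2))) := fun z => by rw [mul_div_assoc]
    have e2 : ∀ z : P, N * z.1 / max s (z.1 ^ 2 + z.2 ^ 2) =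
      N * (z.1 / max s (z.1 ^ 2 + z.2 ^ 2)) := fun z => by rw [mul_div_assoc]
    simp_rw [e1, e2]
    exact (continuous_const.mul hq1).neg.prodMk (continuous_const.mul hq2)
  · intro z hz
    obtain ⟨h1, h2⟩ := disk_sub hz
    have hM : 0 < max s (z.1 ^ 2 + z.2 ^ 2) := lt_of_lt_of_le hs (le_max_left _ _)
    constructor
    · show |-(N * z.2 / max s (z.1 ^ 2 + z.2 ^ 2))| ≤ |N| / s
      rw [abs_neg, abs_div, abs_mul, abs_of_pos hM]
      apply div_le_div₀ (abs_nonneg _) _ hs (le_max_left _ _)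
      exact mul_le_of_le_one_right (abs_nonneg _) h2.le
    · show |N * z.1 / max s (z.1 ^ 2 + z.2 ^ 2)| ≤ |N| / s
      rw [abs_div, abs_mul, abs_of_pos hM]
      apply div_le_div₀ (abs_nonneg _) _ hs (le_max_left _ _)
      exact mul_le_of_le_one_right (abs_nonneg _) h1.le
  · intro φ hφ hc _
    have k1 := ibpB hq1 (dq_meas s) (fun z => dq_bound hs z.1 z.2) (fun x =>
      ⟨{y : ℝ | x ^ 2 + y ^ 2 = s}, count x, fun y hy => dq_deriv hs x y hy⟩) hφ hc
    have k2 := ibpA hq2 (dq_meas' s) (fun z => dq_bound hs z.2 z.1) (fun y =>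
      ⟨{x : ℝ | y ^ 2 + x ^ 2 = s}, count y, fun x hx => by
        have := dq_deriv hs y x hx
        simpa only [add_comm (y ^ 2)] using this⟩) hφ hc
    have i1 : Integrable fun z : P => z.2 / max s (z.1 ^ 2 + z.2 ^ 2) * d2 φ z :=
      (hq1.mul (cont_d2 hφ)).integrable_of_hasCompactSupport (supp_d2 hc).mul_left
    have i2 : Integrable fun z : P => z.1 / max s (z.1 ^ 2 + z.2 ^ 2) * d1 φ z :=
      (hq2.mul (cont_d1 hφ)).integrable_of_hasCompactSupport (supp_d1 hc).mul_left
    have i3 : Integrable fun z : P => dq s z.1 z.2 * φ z :=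
      (hφ.continuous.integrable_of_hasCompactSupport hc).bdd_mul (dq_meas s).aestronglyMeasurable
        (Filter.Eventually.of_forall fun z => dq_bound hs z.1 z.2)
    have i4 : Integrable fun z : P => dq s z.2 z.1 * φ z :=
      (hφ.continuous.integrable_of_hasCompactSupport hc).bdd_mul (dq_meas' s).aestronglyMeasurable
        (Filter.Eventually.of_forall fun z => dq_bound hs z.2 z.1)
    have e1 : ∫ z, ((radA N s z).1 * d2 φ z - (radA N s z).2 * d1 φ z) =
        -N * ((∫ z : P, z.2 / max s (z.1 ^ 2 + z.2 ^ 2) * d2 φ z) +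
          ∫ z : P, z.1 / max s (z.1 ^ 2 + z.2 ^ 2) * d1 φ z) := by
      rw [← integral_add i1 i2, ← integral_const_mul]
      congr 1
      funext z
      unfold radA
      ring
    rw [e1, k1, k2]
    have e2 : -N * (-(∫ z : P, dq s z.1 z.2 * φ z) + -∫ z : P, dq s z.2 z.1 * φ z) =
        ∫ z : P, N * (dq s z.1 z.2 + dq s z.2 z.1) * φ z := by
      have : ∫ z : P, N * (dq s z.1 z.2 + dq s z.2 z.1) * φ z =
          ∫ z : P, N * (dq s z.1 z.2 * φ z + dq s z.2 z.1 * φ z) := by
        congr 1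
        funext z
        ring
      rw [this, integral_const_mul, integral_add i3 i4]
      ring
    rw [e2, ← integral_const_mul, ← integral_indicator (disk_open R).measurableSet]
    congr 1
    funext z
    by_cases hz : z ∈ disk R
    · rw [indicator_of_mem hz]
      have h1 : z.1 ^ 2 + z.2 ^ 2 < s := by
        have : z.1 ^ 2 + z.2 ^ 2 < R ^ 2 := hz
        rwa [hR] at this
      have h2 : z.2 ^ 2 + z.1 ^ 2 < s := by linarith
      unfold dq
      rw [if_pos h1, if_pos h2]
      ring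
    · rw [indicator_of_notMem hz]
      have h1 : ¬ (z.1 ^ 2 + z.2 ^ 2 < s) := by
        intro h
        apply hz
        show z.1 ^ 2 + z.2 ^ 2 < R ^ 2
        rwa [hR]
      have h2 : ¬ (z.2 ^ 2 + z.1 ^ 2 < s) := by
        intro h
        exact h1 (by linarith)
      unfold dq
      rw [if_neg h1, if_neg h2]
      have : (z.1 ^ 2 - z.2 ^ 2) / (z.1 ^ 2 + z.2 ^ 2) ^ 2 +
          (z.2 ^ 2 - z.1 ^ 2) / (z.2 ^ 2 + z.1 ^ 2) ^ 2 = 0 := by
        rw [add_comm (z.2 ^ 2) (z.1 ^ 2), ← add_div]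
        have : z.1 ^ 2 - z.2 ^ 2 + (z.2 ^ 2 - z.1 ^ 2) = 0 := by ring
        rw [this, zero_div]
      rw [this]
      ring

end Pool.Agent.X151.MG
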