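import Pool.Agent.X151.MG.Pot

/-!
The trial function for the disk.
-/

namespace Pool.Agent.X151.MG

open MeasureTheory Set
open scoped ENNReal

/-- `(max 0 v)²`. -/
noncomputable def hh (v : ℝ) : ℝ := (max 0 v) ^ 2

theorem hh_deriv (v : ℝ) : HasDerivAt hh (2 * max 0 v) v := by
  rcases lt_trichotomy v 0 with h | h | h
  · have e : hh =ᶠ[nhds v] fun _ => 0 := by
      filter_upwards [Iio_mem_nhds h] with t ht
      unfold hh
      rw [max_eq_left (le_of_lt ht)]; norm_num
    rw [max_eq_left h.le, mul_zero]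
    exact (hasDerivAt_const v (0 : ℝ)).congr_of_eventuallyEq e
  · subst h
    rw [max_self, mul_zero]
    rw [hasDerivAt_iff_isLittleO]
    have h1 : (fun t : ℝ => hh t - hh 0 - (t - 0) • (0 : ℝ)) =O[nhds 0] fun t : ℝ => t ^ 2 := by
      apply Asymptotics.IsBigO.of_bound 1
      apply Filter.Eventually.of_forall
      intro t
      have e0 : hh 0 = 0 := by unfold hh; simp
      rw [e0, sub_zero, smul_zero, sub_zero, one_mul, Real.norm_eq_abs, Real.norm_eq_abs]
      unfold hh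
      rw [abs_of_nonneg (sq_nonneg _), abs_of_nonneg (sq_nonneg _)]
      rcases le_total 0 t with h | h
      · rw [max_eq_right h]
      · rw [max_eq_left h]; nlinarith [sq_nonneg t]
    have h2 : (fun t : ℝ => t ^ 2) =o[nhds 0] fun t : ℝ => t - 0 := by
      have := Asymptotics.isLittleO_pow_pow (𝕜 := ℝ) (m := 1) (n := 2) (by norm_num)
      simpa using this
    exact h1.trans_isLittleO h2
  · have e : hh =ᶠ[nhds v] fun t => t ^ 2 := by
      filter_upwards [Ioi_mem_nhds h] with t ht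
      unfold hh
      rw [max_eq_right (le_of_lt ht)]
    rw [max_eq_right h.le]
    have := hasDerivAt_pow 2 v
    simp only [Nat.cast_ofNat, Nat.add_one_sub_one, pow_one] at this
    exact this.congr_of_eventuallyEq e

theorem hh_smooth : ContDiff ℝ 1 hh := by
  rw [contDiff_one_iff_deriv]
  refine ⟨fun v => (hh_deriv v).differentiableAt, ?_⟩
  have : deriv hh = fun v => 2 * max 0 v := by
    funext v
    exact (hh_deriv v).deriv
  rw [this]
  fun_prop

/-- The logarithmic profile. -/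
noncomputable def GG (s : ℝ) (t : ℝ) : ℝ := hh (Real.log (t / s)) / Real.log (1 / s) ^ 2

/-- Its derivative. -/
noncomputable def dGG (s : ℝ) (t : ℝ) : ℝ :=
  2 * max 0 (Real.log (t / s)) / t / Real.log (1 / s) ^ 2

theorem GG_deriv {s t : ℝ} (hs : 0 < s) (ht : 0 < t) : HasDerivAt (GG s) (dGG s t) t := by
  have h1 : HasDerivAt (fun t => Real.log (t / s)) (1 / t) t := by
    have h2 := (Real.hasDerivAt_log (div_pos ht hs).ne').comp t ((hasDerivAt_id t).div_const s)
    refine h2.congr_deriv ?_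
    field_simp
  have h3 := ((hh_deriv (Real.log (t / s))).comp t h1).div_const (Real.log (1 / s) ^ 2)
  refine h3.congr_deriv ?_
  unfold dGG
  ring

theorem GG_zero {s t : ℝ} (hs : 0 < s) (h0 : 0 ≤ t) (ht : t ≤ s) : GG s t = 0 := by
  have h1 : Real.log (t / s) ≤ 0 := Real.log_nonpos (div_nonneg h0 hs.le) (by
    rw [div_le_one hs]; exact ht)
  unfold GG hh
  rw [max_eq_left h1]
  simp

/-- `x² + y²`. -/
def rr (z : P) : ℝ := z.1 ^ 2 + z.2 ^ 2

theorem rr_nonneg (z : P) : 0 ≤ rr z := by unfold rr; positivity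

theorem rr_cont : Continuous rr := by unfold rr; fun_prop

/-- The unimodular factor. -/
noncomputable def ph (M : ℕ) (z : P) : ℂ :=
  (((z.1 : ℂ) + z.2 * Complex.I) / ((z.1 : ℂ) - z.2 * Complex.I)) ^ M

theorem den_ne {z : P} (hz : rr z ≠ 0) : ((z.1 : ℂ) - z.2 * Complex.I) ≠ 0 := by
  intro h
  apply hz
  have h1 := congrArg Complex.re h
  have h2 := congrArg Complex.im h
  simp at h1 h2
  unfold rr
  rw [h1, h2]; ring

theorem num_ne {z : P} (hz : rr z ≠ 0) : ((z.1 : ℂ) + z.2 * Complex.I) ≠ 0 := by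
  intro h
  apply hz
  have h1 := congrArg Complex.re h
  have h2 := congrArg Complex.im h
  simp at h1 h2
  unfold rr
  rw [h1, h2]; ring

theorem mul_den (z : P) : ((z.1 : ℂ) + z.2 * Complex.I) * ((z.1 : ℂ) - z.2 * Complex.I) =
    (rr z : ℂ) := by
  unfold rr
  push_cast
  linear_combination (-(z.2 : ℂ) ^ 2) * Complex.I_sq

theorem ph_norm (M : ℕ) {z : P} (hz : rr z ≠ 0) : ‖ph M z‖ = 1 := by
  unfold ph
  rw [norm_pow, norm_div]
  have h : ‖((z.1 : ℂ) - z.2 * Complex.I)‖ = ‖((z.1 : ℂ) + z.2 * Complex.I)‖ := by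
    have : ((z.1 : ℂ) - z.2 * Complex.I) = (starRingEnd ℂ) ((z.1 : ℂ) + z.2 * Complex.I) := by
      simp [sub_eq_add_neg]
    rw [this, Complex.norm_conj]
  rw [h, div_self (norm_ne_zero_iff.2 (num_ne hz)), one_pow]

theorem pow_deriv {q q' : ℂ} (hq : q ≠ 0) (M : ℕ) :
    (M : ℂ) * q ^ (M - 1) * q' = M * q ^ M * (q' / q) := by
  rcases M with _ | k
  · simp
  · rw [Nat.add_sub_cancel, pow_succ]
    field_simp

theorem ph_d1 (M : ℕ) {z : P} (hz : rr z ≠ 0) :
    HasDerivAt (fun x : ℝ => ph M (x, z.2))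
      (-(2 * M * z.2 / rr z * Complex.I) * ph M z) z.1 := by
  have h1 : HasDerivAt (fun x : ℝ => (x : ℂ) + z.2 * Complex.I) 1 z.1 :=
    (Complex.ofRealCLM.hasDerivAt (x := z.1)).add_const _
  have h2 : HasDerivAt (fun x : ℝ => (x : ℂ) - z.2 * Complex.I) 1 z.1 :=
    (Complex.ofRealCLM.hasDerivAt (x := z.1)).sub_const _
  have h3 := (h1.div h2 (den_ne hz)).pow M
  unfold ph
  refine h3.congr_deriv ?_
  have hq : ((z.1 : ℂ) + z.2 * Complex.I) / ((z.1 : ℂ) - z.2 * Complex.I) ≠ 0 :=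
    div_ne_zero (num_ne hz) (den_ne hz)
  simp only [Pi.div_apply]
  rw [pow_deriv hq]
  have hr : (rr z : ℂ) ≠ 0 := by exact_mod_cast hz
  have hm := mul_den z
  have hn := num_ne hz
  have hd := den_ne hz
  have key : ((1 * ((z.1 : ℂ) - z.2 * Complex.I) - ((z.1 : ℂ) + z.2 * Complex.I) * 1) /
      ((z.1 : ℂ) - z.2 * Complex.I) ^ 2) /
      (((z.1 : ℂ) + z.2 * Complex.I) / ((z.1 : ℂ) - z.2 * Complex.I)) =
      -(2 * z.2 / rr z * Complex.I) := by
    rw [← hm]
    field_simp
    ring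
  rw [key]
  ring

theorem ph_d2 (M : ℕ) {z : P} (hz : rr z ≠ 0) :
    HasDerivAt (fun y : ℝ => ph M (z.1, y))
      (2 * M * z.1 / rr z * Complex.I * ph M z) z.2 := by
  have h0 : HasDerivAt (fun y : ℝ => (y : ℂ) * Complex.I) (1 * Complex.I) z.2 :=
    (Complex.ofRealCLM.hasDerivAt (x := z.2)).mul_const _
  have h1 : HasDerivAt (fun y : ℝ => (z.1 : ℂ) + y * Complex.I) (1 * Complex.I) z.2 :=
    h0.const_add _
  have h2 : HasDerivAt (fun y : ℝ => (z.1 : ℂ) - y * Complex.I) (-(1 * Complex.I)) z.2 :=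
    h0.const_sub _
  have h3 := (h1.div h2 (den_ne hz)).pow M
  unfold ph
  refine h3.congr_deriv ?_
  have hq : ((z.1 : ℂ) + z.2 * Complex.I) / ((z.1 : ℂ) - z.2 * Complex.I) ≠ 0 :=
    div_ne_zero (num_ne hz) (den_ne hz)
  simp only [Pi.div_apply]
  rw [pow_deriv hq]
  have hr : (rr z : ℂ) ≠ 0 := by exact_mod_cast hz
  have hm := mul_den z
  have hn := num_ne hz
  have hd := den_ne hz
  have key : ((1 * Complex.I * ((z.1 : ℂ) - z.2 * Complex.I) -
      ((z.1 : ℂ) + z.2 * Complex.I) * -(1 * Complex.I)) /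
      ((z.1 : ℂ) - z.2 * Complex.I) ^ 2) /
      (((z.1 : ℂ) + z.2 * Complex.I) / ((z.1 : ℂ) - z.2 * Complex.I)) =
      2 * z.1 / rr z * Complex.I := by
    rw [← hm]
    field_simp
    ring
  rw [key]
  ring

/-- The trial function. -/
noncomputable def uu (s : ℝ) (M : ℕ) (z : P) : ℂ := (GG s (rr z) : ℂ) * ph M z

theorem uu_zero {s : ℝ} (hs : 0 < s) (M : ℕ) {z : P} (hz : rr z ≤ s) : uu s M z = 0 := by
  unfold uu
  rw [GG_zero hs (rr_nonneg z) hz]; simp

theorem uu_norm (s : ℝ) (M : ℕ) {z : P} (hz : rr z ≠ 0) : ‖uu s M z‖ = GG s (rr z) := by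
  unfold uu
  rw [norm_mul, ph_norm M hz, mul_one, Complex.norm_real, Real.norm_of_nonneg]
  unfold GG hh
  positivity

theorem uu_smooth {s : ℝ} (hs : 0 < s) (M : ℕ) : ContDiff ℝ 1 (uu s M) := by
  rw [contDiff_iff_contDiffAt]
  intro z
  by_cases hz : rr z < s
  · have : uu s M =ᶠ[nhds z] fun _ => 0 := by
      filter_upwards [rr_cont.continuousAt.eventually_lt continuousAt_const hz] with y hy
      exact uu_zero hs M hy.le
    exact contDiffAt_const.congr_of_eventuallyEq this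
  · push Not at hz
    have hz0 : 0 < rr z := lt_of_lt_of_le hs hz
    have h1 : ContDiffAt ℝ 1 (fun z => GG s (rr z)) z := by
      unfold GG
      apply ContDiffAt.div_const
      apply hh_smooth.contDiffAt.comp
      apply ContDiffAt.log
      · apply ContDiffAt.div_const
        unfold rr
        fun_prop
      · exact (div_pos hz0 hs).ne'
    have h2 : ContDiffAt ℝ 1 (ph M) z := by
      unfold ph
      have c1 : ContDiff ℝ 1 fun z : P => (z.1 : ℂ) :=
        Complex.ofRealCLM.contDiff.comp contDiff_fst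
      have c2 : ContDiff ℝ 1 fun z : P => (z.2 : ℂ) :=
        Complex.ofRealCLM.contDiff.comp contDiff_snd
      have c3 : ContDiffAt ℝ 1 (fun z : P => (z.1 : ℂ) + z.2 * Complex.I) z :=
        (c1.add (c2.mul contDiff_const)).contDiffAt
      have c4 : ContDiffAt ℝ 1 (fun z : P => (z.1 : ℂ) - z.2 * Complex.I) z :=
        (c1.sub (c2.mul contDiff_const)).contDiffAt
      have c5 := (c3.mul (c4.inv (den_ne hz0.ne'))).pow M
      exact c5
    exact (Complex.ofRealCLM.contDiff.contDiffAt.comp z h1).mul h2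

end Pool.Agent.X151.MG
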