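import Pool.Agent.X151.MG.Trial

/-!
The energy of the trial function for the disk.
-/

namespace Pool.Agent.X151.MG

open MeasureTheory Set
open scoped ENNReal

theorem d1_of {f : P → ℂ} {z : P} (hf : DifferentiableAt ℝ f z) {c : ℂ}
    (h : HasDerivAt (fun x : ℝ => f (x, z.2)) c z.1) : d1 f z = c := by
  have h1 : HasDerivAt (fun x : ℝ => ((x, z.2) : P)) (1, 0) z.1 :=
    (hasDerivAt_id z.1).prodMk (hasDerivAt_const z.1 z.2)
  have h2 : HasFDerivAt f (fderiv ℝ f z) ((z.1, z.2) : P) := hf.hasFDerivAt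
  have h3 := h2.comp_hasDerivAt z.1 h1
  exact h3.unique h

theorem d2_of {f : P → ℂ} {z : P} (hf : DifferentiableAt ℝ f z) {c : ℂ}
    (h : HasDerivAt (fun y : ℝ => f (z.1, y)) c z.2) : d2 f z = c := by
  have h1 : HasDerivAt (fun y : ℝ => ((z.1, y) : P)) (0, 1) z.2 :=
    (hasDerivAt_const z.2 z.1).prodMk (hasDerivAt_id z.2)
  have h2 : HasFDerivAt f (fderiv ℝ f z) ((z.1, z.2) : P) := hf.hasFDerivAt
  have h3 := h2.comp_hasDerivAt z.2 h1
  exact h3.unique h

theorem uu_diff {s : ℝ} (hs : 0 < s) (M : ℕ) (z : P) : DifferentiableAt ℝ (uu s M) z :=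
  (uu_smooth hs M).differentiable one_ne_zero z

theorem uu_d1 {s : ℝ} (hs : 0 < s) (M : ℕ) {z : P} (hz : 0 < rr z) :
    d1 (uu s M) z = (2 * z.1 * dGG s (rr z) : ℝ) * ph M z +
      GG s (rr z) * (-(2 * M * z.2 / rr z * Complex.I) * ph M z) := by
  apply d1_of (uu_diff hs M z)
  have h1 : HasDerivAt (fun x : ℝ => rr (x, z.2)) (2 * z.1) z.1 := by
    unfold rr
    simpa using (hasDerivAt_pow 2 z.1).add_const (z.2 ^ 2)
  have h2 : HasDerivAt (GG s) (dGG s (rr z)) (rr (z.1, z.2)) := GG_deriv hs hz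
  have h3 : HasDerivAt (fun x : ℝ => GG s (rr (x, z.2))) (dGG s (rr z) * (2 * z.1)) z.1 :=
    HasDerivAt.comp (h₂ := GG s) (h := fun x : ℝ => rr (x, z.2)) z.1 h2 h1
  have h4 := h3.ofReal_comp.mul (ph_d1 M hz.ne')
  refine h4.congr_deriv ?_
  push_cast
  ring

theorem uu_d2 {s : ℝ} (hs : 0 < s) (M : ℕ) {z : P} (hz : 0 < rr z) :
    d2 (uu s M) z = (2 * z.2 * dGG s (rr z) : ℝ) * ph M z +
      GG s (rr z) * (2 * M * z.1 / rr z * Complex.I * ph M z) := by
  apply d2_of (uu_diff hs M z)
  have h1 : HasDerivAt (fun y : ℝ => rr (z.1, y)) (2 * z.2) z.2 := by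
    unfold rr
    simpa using (hasDerivAt_pow 2 z.2).const_add (z.1 ^ 2)
  have h2 : HasDerivAt (GG s) (dGG s (rr z)) (rr (z.1, z.2)) := GG_deriv hs hz
  have h3 : HasDerivAt (fun y : ℝ => GG s (rr (z.1, y))) (dGG s (rr z) * (2 * z.2)) z.2 :=
    HasDerivAt.comp (h₂ := GG s) (h := fun y : ℝ => rr (z.1, y)) z.2 h2 h1
  have h4 := h3.ofReal_comp.mul (ph_d2 M hz.ne')
  refine h4.congr_deriv ?_
  push_cast
  ring

/-- The energy density of the trial function. -/
theorem eden_uu {s : ℝ} (hs : 0 < s) (hs1 : s < 1) (M : ℕ) {z : P} (hz : rr z < 1) :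
    eden (radA (2 * M) s) (uu s M) z ≤
      if s < rr z then 16 / (Real.log (1 / s) ^ 2 * rr z) else 0 := by
  by_cases h : rr z < s
  · rw [if_neg (not_lt.2 h.le)]
    have hev : uu s M =ᶠ[nhds z] fun _ => 0 := by
      filter_upwards [rr_cont.continuousAt.eventually_lt continuousAt_const h] with y hy
      exact uu_zero hs M hy.le
    have e1 : d1 (uu s M) z = 0 := by
      unfold d1
      rw [hev.fderiv_eq]; simp
    have e2 : d2 (uu s M) z = 0 := by
      unfold d2
      rw [hev.fderiv_eq]; simp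
    unfold eden
    rw [e1, e2, uu_zero hs M h.le]
    simp
  · push Not at h
    have hz0 : 0 < rr z := lt_of_lt_of_le hs h
    have hmax : max s (z.1 ^ 2 + z.2 ^ 2) = rr z := max_eq_right h
    have e1 : (radA (2 * M) s z).1 = -(2 * M * z.2 / rr z) := by
      show -(2 * M * z.2 / max s (z.1 ^ 2 + z.2 ^ 2)) = _
      rw [hmax]
    have e2 : (radA (2 * M) s z).2 = 2 * M * z.1 / rr z := by
      show 2 * M * z.1 / max s (z.1 ^ 2 + z.2 ^ 2) = _
      rw [hmax]
    have f1 : -Complex.I * d1 (uu s M) z - (radA (2 * M) s z).1 * uu s M z =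
        -Complex.I * ((2 * z.1 * dGG s (rr z) : ℝ) * ph M z) := by
      rw [uu_d1 hs M hz0, e1]
      unfold uu
      push_cast
      linear_combination (GG s (rr z) * (2 * M * z.2 / rr z) * ph M z : ℂ) * Complex.I_sq
    have f2 : -Complex.I * d2 (uu s M) z - (radA (2 * M) s z).2 * uu s M z =
        -Complex.I * ((2 * z.2 * dGG s (rr z) : ℝ) * ph M z) := by
      rw [uu_d2 hs M hz0, e2]
      unfold uu
      push_cast
      linear_combination (-(GG s (rr z) * (2 * M * z.1 / rr z) * ph M z) : ℂ) * Complex.I_sq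
    have hn : eden (radA (2 * M) s) (uu s M) z = 4 * rr z * dGG s (rr z) ^ 2 := by
      unfold eden
      rw [f1, f2]
      simp only [norm_mul, norm_neg, Complex.norm_I, one_mul, ph_norm M hz0.ne', mul_one,
        Complex.norm_real, Real.norm_eq_abs]
      unfold rr
      simp only [mul_pow, sq_abs]
      ring
    rw [hn]
    have hL : 0 < Real.log (1 / s) := Real.log_pos (by rw [lt_div_iff₀ hs]; linarith)
    have hlog : Real.log (rr z / s) ≤ Real.log (1 / s) := by
      apply Real.log_le_log (by positivity)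
      gcongr
    by_cases h' : s < rr z
    · rw [if_pos h']
      have hlog0 : 0 ≤ Real.log (rr z / s) := Real.log_nonneg (by
        rw [le_div_iff₀ hs]; linarith)
      unfold dGG
      rw [max_eq_right hlog0]
      have : 4 * rr z * (2 * Real.log (rr z / s) / rr z / Real.log (1 / s) ^ 2) ^ 2 =
          (Real.log (rr z / s) ^ 2 / Real.log (1 / s) ^ 2) *
            (16 / (Real.log (1 / s) ^ 2 * rr z)) := by
        field_simp
        ring
      rw [this]
      apply mul_le_of_le_one_left (by positivity)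
      rw [div_le_one (by positivity)]
      exact pow_le_pow_left₀ hlog0 hlog 2
    · have : rr z = s := le_antisymm (not_lt.1 h') h
      rw [if_neg h', this]
      unfold dGG
      rw [div_self hs.ne', Real.log_one, max_self]
      simp

end Pool.Agent.X151.MG
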