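import Pool.Agent.X151.MG.Trial2

/-!
The upper bound for the lowest eigenvalue of the disk.
-/

namespace Pool.Agent.X151.MG

open MeasureTheory Set
open scoped ENNReal

theorem int_inv {s : ℝ} (hs : 0 < s) (hs1 : s < 1) {c : ℝ} (hc : 0 ≤ c) :
    ∫⁻ r in Ioo (Real.sqrt s) 1, ENNReal.ofReal (c * r⁻¹) =
      ENNReal.ofReal (c * (Real.log (1 / s) / 2)) := by
  have hq : 0 < Real.sqrt s := Real.sqrt_pos.2 hs
  have hq1 : Real.sqrt s ≤ 1 := by
    rw [Real.sqrt_le_one]; exact hs1.le
  rw [← ofReal_integral_eq_lintegral_ofReal]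
  · rw [← integral_Ioc_eq_integral_Ioo, ← intervalIntegral.integral_of_le hq1,
      intervalIntegral.integral_const_mul, integral_inv_of_pos hq one_pos]
    congr 2
    rw [one_div, one_div, Real.log_inv, Real.log_inv, Real.log_sqrt hs.le]
    ring
  · have h : IntervalIntegrable (fun r : ℝ => c * r⁻¹) volume (Real.sqrt s) 1 := by
      apply ContinuousOn.intervalIntegrable
      intro r hr
      rw [uIcc_of_le hq1] at hr
      have : r ≠ 0 := (lt_of_lt_of_le hq hr.1).ne'
      exact (continuousAt_const.mul (continuousAt_inv₀ this)).continuousWithinAt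
    rw [intervalIntegrable_iff_integrableOn_Ioo_of_le hq1] at h
    exact h
  · filter_upwards [ae_restrict_mem measurableSet_Ioo] with r hr
    have : 0 < r := hq.trans hr.1
    positivity

theorem energy_uu {s : ℝ} (hs : 0 < s) (hs1 : s < 1) (M : ℕ) :
    energy (radA (2 * M) s) (disk 1) (uu s M) ≤
      ENNReal.ofReal (16 * Real.pi / Real.log (1 / s)) := by
  set L := Real.log (1 / s) with hL
  have hL0 : 0 < L := Real.log_pos (by rw [lt_div_iff₀ hs]; linarith)
  set F : P → ℝ≥0∞ := fun p =>
    if s < rr p ∧ rr p < 1 then ENNReal.ofReal (16 / (L ^ 2 * rr p)) else 0 with hF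
  have h1 : energy (radA (2 * M) s) (disk 1) (uu s M) ≤ ∫⁻ p, F p := by
    have e : energy (radA (2 * M) s) (disk 1) (uu s M) =
      ∫⁻ p in disk 1, ENNReal.ofReal (eden (radA (2 * M) s) (uu s M) p) := rfl
    rw [e]
    calc ∫⁻ p in disk 1, ENNReal.ofReal (eden (radA (2 * M) s) (uu s M) p) ≤
        ∫⁻ p in disk 1, F p := by
          apply setLIntegral_mono_ae' (disk_open 1).measurableSet
          apply Filter.Eventually.of_forall
          intro p hp
          have hp1 : rr p < 1 := by
            have : p.1 ^ 2 + p.2 ^ 2 < 1 ^ 2 := hp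
            unfold rr; linarith
          have h := eden_uu hs hs1 M hp1
          refine (ENNReal.ofReal_le_ofReal h).trans ?_
          simp only [hF]
          by_cases h' : s < rr p
          · rw [if_pos h', if_pos ⟨h', hp1⟩]
          · rw [if_neg h', if_neg (fun h'' => h' h''.1)]
            simp
      _ ≤ ∫⁻ p, F p := setLIntegral_le_lintegral _ _
  refine h1.trans ?_
  rw [← lintegral_comp_polarCoord_symm]
  have hpol : ∀ p : P, rr (polarCoord.symm p) = p.1 ^ 2 := by
    intro p
    rw [polarCoord_symm_apply]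
    unfold rr
    simp only
    linear_combination (p.1 ^ 2) * Real.sin_sq_add_cos_sq p.2
  have h2 : ∫⁻ p in polarCoord.target, ENNReal.ofReal p.1 • F (polarCoord.symm p) ≤
      ∫⁻ p in Ioi (0 : ℝ) ×ˢ Ioo (-Real.pi) Real.pi,
        (Ioo (Real.sqrt s) 1).indicator (fun r => ENNReal.ofReal (16 / L ^ 2 * r⁻¹)) p.1 := by
    rw [polarCoord_target]
    apply setLIntegral_mono_ae' (measurableSet_Ioi.prod measurableSet_Ioo)
    apply Filter.Eventually.of_forall
    intro p hp
    have hp0 : 0 < p.1 := hp.1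
    simp only [hF, hpol]
    by_cases h' : s < p.1 ^ 2 ∧ p.1 ^ 2 < 1
    · rw [if_pos h']
      have hm : p.1 ∈ Ioo (Real.sqrt s) 1 := by
        refine ⟨(Real.sqrt_lt' hp0).2 h'.1, ?_⟩
        have := h'.2
        nlinarith
      rw [indicator_of_mem hm, smul_eq_mul, ← ENNReal.ofReal_mul hp0.le]
      apply le_of_eq
      congr 1
      field_simp
    · rw [if_neg h', smul_zero]
      exact zero_le
  refine h2.trans ?_
  rw [Measure.volume_eq_prod, setLIntegral_prod]
  · simp only [lintegral_const, Measure.restrict_apply MeasurableSet.univ, univ_inter,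
      Real.volume_Ioo]
    rw [lintegral_mul_const _ (by
      apply Measurable.indicator _ measurableSet_Ioo
      fun_prop)]
    have h3 : ∫⁻ r in Ioi (0 : ℝ), (Ioo (Real.sqrt s) 1).indicator
        (fun r => ENNReal.ofReal (16 / L ^ 2 * r⁻¹)) r ≤
        ENNReal.ofReal (16 / L ^ 2 * (L / 2)) := by
      rw [← int_inv hs hs1 (by positivity), ← lintegral_indicator measurableSet_Ioo]
      exact setLIntegral_le_lintegral _ _
    refine (mul_le_mul' h3 le_rfl).trans ?_
    rw [← ENNReal.ofReal_mul (by positivity)]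
    apply le_of_eq
    congr 1
    field_simp
    ring
  · apply Measurable.aemeasurable
    have : Measurable ((Ioo (Real.sqrt s) 1).indicator
        (fun r => ENNReal.ofReal (16 / L ^ 2 * r⁻¹))) := by
      apply Measurable.indicator _ measurableSet_Ioo
      fun_prop
    exact this.comp measurable_fst

theorem GG_low {s : ℝ} (hs : 0 < s) (hL : 4 ≤ Real.log (1 / s)) {z : P} (h1 : 1 / 2 < z.1) :
    1 / 4 ≤ GG s (rr z) := by
  set L := Real.log (1 / s) with hLdef
  have hr : 1 / 4 ≤ rr z := by unfold rr; nlinarith [sq_nonneg z.2]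
  have hlog4 : Real.log 4 ≤ 2 := by
    have : Real.log 4 = 2 * Real.log 2 := by
      rw [show (4 : ℝ) = 2 ^ 2 by norm_num, Real.log_pow]; norm_num
    rw [this]
    have := Real.log_two_lt_d9
    linarith
  have h2 : L / 2 ≤ Real.log (rr z / s) := by
    have e : Real.log ((1 / 4) * (1 / s)) ≤ Real.log (rr z / s) := by
      apply Real.log_le_log (by positivity)
      rw [div_eq_mul_one_div (rr z)]
      gcongr
    rw [Real.log_mul (by norm_num) (by positivity), Real.log_div (by norm_num) (by norm_num),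
      Real.log_one] at e
    linarith
  have hL0 : 0 < L := by linarith
  unfold GG hh
  rw [max_eq_right (by linarith), le_div_iff₀ (by positivity)]
  have : (L / 2) ^ 2 ≤ Real.log (rr z / s) ^ 2 := pow_le_pow_left₀ (by linarith) h2 2
  linarith

theorem mass_uu {s : ℝ} (hs : 0 < s) (hL : 4 ≤ Real.log (1 / s)) (M : ℕ) :
    ENNReal.ofReal (1 / 128) ≤ mass (disk 1) (uu s M) := by
  have hsub : Ioo (1 / 2 : ℝ) (3 / 4) ×ˢ Ioo (0 : ℝ) (1 / 2) ⊆ disk 1 := by
    intro p hp
    obtain ⟨⟨h1, h2⟩, h3, h4⟩ := hp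
    show p.1 ^ 2 + p.2 ^ 2 < 1 ^ 2
    nlinarith
  calc ENNReal.ofReal (1 / 128) =
      ∫⁻ p in Ioo (1 / 2 : ℝ) (3 / 4) ×ˢ Ioo (0 : ℝ) (1 / 2), ENNReal.ofReal ((1 / 4) ^ 2) := by
        rw [setLIntegral_const, Measure.volume_eq_prod, Measure.prod_prod, Real.volume_Ioo,
          Real.volume_Ioo, ← ENNReal.ofReal_mul (by norm_num), ← ENNReal.ofReal_mul (by norm_num)]
        congr 1
        norm_num
    _ ≤ ∫⁻ p in Ioo (1 / 2 : ℝ) (3 / 4) ×ˢ Ioo (0 : ℝ) (1 / 2),
        ENNReal.ofReal (‖uu s M p‖ ^ 2) := by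
        apply setLIntegral_mono_ae' (measurableSet_Ioo.prod measurableSet_Ioo)
        apply Filter.Eventually.of_forall
        intro p hp
        have h1 : 1 / 2 < p.1 := hp.1.1
        have h0 : rr p ≠ 0 := by
          have : 0 < rr p := by unfold rr; nlinarith [sq_nonneg p.2]
          exact this.ne'
        apply ENNReal.ofReal_le_ofReal
        rw [uu_norm s M h0]
        exact pow_le_pow_left₀ (by norm_num) (GG_low hs hL h1) 2
    _ ≤ mass (disk 1) (uu s M) := lintegral_mono_set hsub

theorem cont_fin {f : P → ℝ} (hf : Continuous f) :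
    ∫⁻ p in disk 1, ENNReal.ofReal (f p) < ∞ := by
  have h1 : IntegrableOn f (Metric.closedBall (0 : P) 1) :=
    hf.continuousOn.integrableOn_compact (isCompact_closedBall _ _)
  have h2 : disk 1 ⊆ Metric.closedBall (0 : P) 1 := by
    intro p hp
    obtain ⟨h3, h4⟩ := disk_sub hp
    rw [mem_closedBall_zero_iff, Prod.norm_def, max_le_iff]
    exact ⟨h3.le, h4.le⟩
  exact (h1.mono_set h2).lintegral_lt_top

theorem test_uu {s : ℝ} (hs : 0 < s) (hL : 4 ≤ Real.log (1 / s)) (M : ℕ) :
    IsTest (disk 1) (uu s M) := by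
  have hu := uu_smooth hs M
  refine ⟨hu.contDiffOn, ?_, ?_, ((5 / 8, 1 / 4) : P), ?_, ?_⟩
  · exact cont_fin (by have := hu.continuous; fun_prop)
  · apply cont_fin
    have h1 : Continuous (d1 (uu s M)) :=
      (hu.continuous_fderiv one_ne_zero).clm_apply continuous_const
    have h2 : Continuous (d2 (uu s M)) :=
      (hu.continuous_fderiv one_ne_zero).clm_apply continuous_const
    fun_prop
  · show (5 / 8 : ℝ) ^ 2 + (1 / 4) ^ 2 < 1 ^ 2
    norm_num
  · have h1 : (1 / 2 : ℝ) < ((5 / 8, 1 / 4) : P).1 := by norm_num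
    have h0 : rr ((5 / 8, 1 / 4) : P) ≠ 0 := by
      unfold rr; norm_num
    have h2 := GG_low hs hL h1
    rw [← uu_norm s M h0] at h2
    intro h
    rw [h, norm_zero] at h2
    norm_num at h2

/-- The upper bound for the disk. -/
theorem upper {s : ℝ} (hs : 0 < s) (hL : 4 ≤ Real.log (1 / s)) (M : ℕ) {R : ℝ}
    (hR : R ^ 2 = s) :
    lam (2 * (2 * M) / s) (disk 1) (disk R) ≤
      ENNReal.ofReal (2048 * Real.pi / Real.log (1 / s)) := by
  have hs1 : s < 1 := by
    by_contra h
    push Not at h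
    have : Real.log (1 / s) ≤ 0 := by
      apply Real.log_nonpos (by positivity)
      rw [div_le_one hs]; exact h
    linarith
  have hL0 : 0 < Real.log (1 / s) := by linarith
  unfold lam
  refine (iInf₂_le (radA (2 * M) s) (radA_pot hs (2 * M) hR)).trans ?_
  refine (iInf₂_le (uu s M) (test_uu hs hL M)).trans ?_
  rw [ENNReal.div_le_iff_le_mul]
  · calc energy (radA (2 * M) s) (disk 1) (uu s M) ≤
        ENNReal.ofReal (16 * Real.pi / Real.log (1 / s)) := energy_uu hs hs1 M
      _ = ENNReal.ofReal (2048 * Real.pi / Real.log (1 / s)) * ENNReal.ofReal (1 / 128) := by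
        rw [← ENNReal.ofReal_mul (by positivity)]
        congr 1
        ring
      _ ≤ _ := mul_le_mul' le_rfl (mass_uu hs hL M)
  · left
    intro h
    have := mass_uu hs hL M
    rw [h] at this
    simp at this
  · left
    exact (test_uu hs hL M).2.1.ne

end Pool.Agent.X151.MG
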